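import Mathlib

/-!
A common abstract form of the subspace theorem and of the second main theorem for entire functions.
-/

set_option autoImplicit false

open Finset Filter Module

namespace Pool.Agent.Y742.DI

/-- A field `E` of germs of functions over a field of constants `k`, with absolute values
`A x : Ω → ℝ`, a ring `R` of integral elements, a group `U` of units, and a notion `Neg` of
functions which are negligible from above compared with the function `one`; the last two axioms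
are the subspace theorem and the unit equation theorem. -/
structure Dict (k E : Type) [Field k] [Field E] [Algebra k E] where
  Ω : Type
  ev : Filter Ω
  A : E → Ω → ℝ
  Neg : (Ω → ℝ) → Prop
  one : Ω → ℝ
  R : Subring E
  U : Subgroup Eˣ
  A_zero : ∀ᶠ ω in ev, A 0 ω = 0
  A_pos : ∀ x, x ≠ 0 → ∀ᶠ ω in ev, 0 < A x ω
  A_mul : ∀ x y, ∀ᶠ ω in ev, A (x * y) ω = A x ω * A y ω
  A_add : ∀ x y, ∀ᶠ ω in ev, A (x + y) ω ≤ A x ω + A y ω
  A_const : ∀ c : k, ∃ C : ℝ, ∀ᶠ ω in ev, A (algebraMap k E c) ω ≤ C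
  neg_mono : ∀ f g : Ω → ℝ, (∀ᶠ ω in ev, g ω ≤ f ω) → Neg f → Neg g
  neg_add : ∀ f g, Neg f → Neg g → Neg (fun ω => f ω + g ω)
  neg_smul : ∀ f (c : ℝ), 0 ≤ c → Neg f → Neg (fun ω => c * f ω)
  neg_const : ∀ c : ℝ, Neg (fun _ => c)
  one_nonneg : ∀ᶠ ω in ev, 0 ≤ one ω
  arch : ∀ f, (∀ ε : ℝ, 0 < ε → Neg (fun ω => f ω - ε * one ω)) → Neg f
  bdd : ∀ x, x ≠ 0 → ∃ C : ℝ, Neg (fun ω => |Real.log (A x ω)| - C * one ω)
  const_mem : ∀ c : k, algebraMap k E c ∈ R
  unit_mem : ∀ u ∈ U, (u : E) ∈ R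
  const_unit : ∀ u : Eˣ, (u : E) ∈ (algebraMap k E).range → u ∈ U
  unit_neg : ∀ u ∈ U, Neg (fun ω => Real.log (A u ω))
  smt : ∀ (N : ℕ) (κ : Type) [Finite κ] (B : κ → Fin N → E),
    (∀ c, LinearIndependent k (B c)) →
    (∀ c c', Submodule.span k (Set.range (B c)) = Submodule.span k (Set.range (B c'))) →
    (∀ c a, B c a ∈ R) → ∀ s : Ω → κ, Neg (fun ω => -∑ a, Real.log (A (B (s ω) a) ω))
  unit_eq : ∀ (n : ℕ) (u : Fin n → Eˣ), (∀ i, u i ∈ U) →
    (∀ i j, i ≠ j → ((u i / u j : Eˣ) : E) ∉ (algebraMap k E).range) →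
    LinearIndependent k (fun i => (u i : E))
  tf : ∀ (x : E) (n : ℕ), 0 < n → x ^ n ∈ (algebraMap k E).range → x ∈ (algebraMap k E).range

namespace Dict

variable {k E : Type} [Field k] [Field E] [Algebra k E] (D : Dict k E)

theorem neg_sum {ι : Type} (s : Finset ι) (f : ι → D.Ω → ℝ) (h : ∀ i ∈ s, D.Neg (f i)) :
    D.Neg (fun ω => ∑ i ∈ s, f i ω) := by
  classical
  induction s using Finset.induction_on with
  | empty => simpa using D.neg_const 0
  | insert i s hi ih =>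
    simp only [Finset.sum_insert hi]
    exact D.neg_add _ _ (h i (Finset.mem_insert_self _ _))
      (ih fun j hj => h j (Finset.mem_insert_of_mem hj))

theorem A_one : ∀ᶠ ω in D.ev, D.A 1 ω = 1 := by
  filter_upwards [D.A_pos 1 one_ne_zero, D.A_mul 1 1] with ω h1 h2
  rw [mul_one] at h2
  have h3 : D.A 1 ω * (D.A 1 ω - 1) = 0 := by linarith
  rcases mul_eq_zero.1 h3 with h | h
  · linarith
  · linarith

theorem A_pow (x : E) (n : ℕ) : ∀ᶠ ω in D.ev, D.A (x ^ n) ω = D.A x ω ^ n := by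
  induction n with
  | zero => simpa using D.A_one
  | succ n ih =>
    filter_upwards [ih, D.A_mul (x ^ n) x] with ω h1 h2
    rw [pow_succ, pow_succ, h2, h1]

theorem A_prod {ι : Type} (s : Finset ι) (x : ι → E) :
    ∀ᶠ ω in D.ev, D.A (∏ i ∈ s, x i) ω = ∏ i ∈ s, D.A (x i) ω := by
  classical
  induction s using Finset.induction_on with
  | empty => simpa using D.A_one
  | insert i s hi ih =>
    filter_upwards [ih, D.A_mul (x i) (∏ i ∈ s, x i)] with ω h1 h2
    rw [Finset.prod_insert hi, Finset.prod_insert hi, h2, h1]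

theorem A_nonneg (x : E) : ∀ᶠ ω in D.ev, 0 ≤ D.A x ω := by
  by_cases hx : x = 0
  · subst hx
    filter_upwards [D.A_zero] with ω h
    rw [h]
  · filter_upwards [D.A_pos x hx] with ω h
    exact h.le

theorem A_sum {ι : Type} (s : Finset ι) (x : ι → E) :
    ∀ᶠ ω in D.ev, D.A (∑ i ∈ s, x i) ω ≤ ∑ i ∈ s, D.A (x i) ω := by
  classical
  induction s using Finset.induction_on with
  | empty =>
    filter_upwards [D.A_zero] with ω h
    simp [h]
  | insert i s hi ih =>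
    filter_upwards [ih, D.A_add (x i) (∑ i ∈ s, x i)] with ω h1 h2
    rw [Finset.sum_insert hi, Finset.sum_insert hi]
    linarith

/-- the logarithm -/
noncomputable def lg (x : E) (ω : D.Ω) : ℝ := Real.log (D.A x ω)

theorem lg_mul (x y : E) (hx : x ≠ 0) (hy : y ≠ 0) :
    ∀ᶠ ω in D.ev, D.lg (x * y) ω = D.lg x ω + D.lg y ω := by
  filter_upwards [D.A_mul x y, D.A_pos x hx, D.A_pos y hy] with ω h1 h2 h3
  unfold lg
  rw [h1, Real.log_mul h2.ne' h3.ne']

theorem lg_one : ∀ᶠ ω in D.ev, D.lg 1 ω = 0 := by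
  filter_upwards [D.A_one] with ω h
  unfold lg
  rw [h, Real.log_one]

theorem lg_inv (x : E) (hx : x ≠ 0) : ∀ᶠ ω in D.ev, D.lg x⁻¹ ω = -D.lg x ω := by
  filter_upwards [D.lg_mul x x⁻¹ hx (inv_ne_zero hx), D.lg_one] with ω h1 h2
  rw [mul_inv_cancel₀ hx, h2] at h1
  linarith

theorem lg_div (x y : E) (hx : x ≠ 0) (hy : y ≠ 0) :
    ∀ᶠ ω in D.ev, D.lg (x / y) ω = D.lg x ω - D.lg y ω := by
  filter_upwards [D.lg_mul x y⁻¹ hx (inv_ne_zero hy), D.lg_inv y hy] with ω h1 h2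
  rw [div_eq_mul_inv, h1, h2]
  ring

theorem lg_pow (x : E) (n : ℕ) : ∀ᶠ ω in D.ev, D.lg (x ^ n) ω = n * D.lg x ω := by
  filter_upwards [D.A_pow x n] with ω h1
  unfold lg
  rw [h1, Real.log_pow]

theorem lg_prod {ι : Type} (s : Finset ι) (x : ι → E) (hx : ∀ i ∈ s, x i ≠ 0) :
    ∀ᶠ ω in D.ev, D.lg (∏ i ∈ s, x i) ω = ∑ i ∈ s, D.lg (x i) ω := by
  have h1 : ∀ᶠ ω in D.ev, ∀ i ∈ s, 0 < D.A (x i) ω :=
    (Filter.eventually_all_finset s).2 fun i hi => D.A_pos _ (hx i hi)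
  filter_upwards [D.A_prod s x, h1] with ω h2 h3
  unfold lg
  rw [h2, Real.log_prod (fun i hi => (h3 i hi).ne')]

theorem lg_zpow (x : E) (hx : x ≠ 0) (n : ℤ) : ∀ᶠ ω in D.ev, D.lg (x ^ n) ω = n * D.lg x ω := by
  obtain ⟨m, rfl | rfl⟩ := n.eq_nat_or_neg
  · filter_upwards [D.lg_pow x m] with ω h
    rw [zpow_natCast, h]
    push_cast
    ring
  · filter_upwards [D.lg_pow x m, D.lg_inv (x ^ m) (pow_ne_zero _ hx)] with ω h h'
    rw [zpow_neg, zpow_natCast, h', h]
    push_cast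
    ring

theorem const_bdd (c : k) (hc : c ≠ 0) : ∃ C : ℝ, ∀ᶠ ω in D.ev, |D.lg (algebraMap k E c) ω| ≤ C := by
  have hc0 : algebraMap k E c ≠ 0 := (map_ne_zero _).2 hc
  obtain ⟨C1, h1⟩ := D.A_const c
  obtain ⟨C2, h2⟩ := D.A_const c⁻¹
  refine ⟨|Real.log (|C1| + 1)| + |Real.log (|C2| + 1)|, ?_⟩
  filter_upwards [h1, h2, D.lg_inv _ hc0, D.A_pos _ hc0,
    D.A_pos _ (inv_ne_zero hc0)] with ω g1 g2 g3 g4 g5
  have e1 : D.lg (algebraMap k E c) ω ≤ Real.log (|C1| + 1) := by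
    refine Real.log_le_log g4 ?_
    have := le_abs_self C1
    linarith
  have e2 : D.lg (algebraMap k E c)⁻¹ ω ≤ Real.log (|C2| + 1) := by
    refine Real.log_le_log g5 ?_
    rw [← map_inv₀]
    have := le_abs_self C2
    linarith
  rw [g3] at e2
  have e3 := le_abs_self (Real.log (|C1| + 1))
  have e4 := le_abs_self (Real.log (|C2| + 1))
  have e5 := abs_nonneg (Real.log (|C1| + 1))
  have e6 := abs_nonneg (Real.log (|C2| + 1))
  rw [abs_le]
  constructor <;> linarith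

theorem unit_neg' (u : Eˣ) (hu : u ∈ D.U) : D.Neg (fun ω => D.lg u ω) := D.unit_neg u hu

theorem unit_neg_inv (u : Eˣ) (hu : u ∈ D.U) : D.Neg (fun ω => -D.lg u ω) := by
  refine D.neg_mono _ _ ?_ (D.unit_neg' u⁻¹ (D.U.inv_mem hu))
  filter_upwards [D.lg_inv (u : E) u.ne_zero] with ω h
  rw [Units.val_inv_eq_inv_val, h]

/-- the upper bound for polynomial expressions -/
theorem lg_sum_le {ι : Type} [Fintype ι] (c : ι → k) (x : ι → E) (hx : ∀ i, x i ≠ 0)
    (h0 : ∑ i, algebraMap k E (c i) * x i ≠ 0) :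
    ∃ C : ℝ, ∀ᶠ ω in D.ev, ∀ w : ℝ, (∀ i, c i ≠ 0 → D.lg (x i) ω ≤ w) →
      D.lg (∑ i, algebraMap k E (c i) * x i) ω ≤ C + w := by
  classical
  choose C hC using fun i => D.A_const (c i)
  refine ⟨Real.log (∑ i, |C i| + 1), ?_⟩
  have h1 : ∀ᶠ ω in D.ev, ∀ i ∈ (Finset.univ : Finset ι), D.A (algebraMap k E (c i)) ω ≤ C i :=
    (Filter.eventually_all_finset _).2 fun i _ => hC i
  have h2 : ∀ᶠ ω in D.ev, ∀ i ∈ (Finset.univ : Finset ι), 0 < D.A (x i) ω :=
    (Filter.eventually_all_finset _).2 fun i _ => D.A_pos _ (hx i)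
  have h3 : ∀ᶠ ω in D.ev, ∀ i ∈ (Finset.univ : Finset ι),
      D.A (algebraMap k E (c i) * x i) ω = D.A (algebraMap k E (c i)) ω * D.A (x i) ω :=
    (Filter.eventually_all_finset _).2 fun i _ => D.A_mul _ _
  filter_upwards [h1, h2, h3, D.A_sum Finset.univ (fun i => algebraMap k E (c i) * x i),
    D.A_pos _ h0, D.A_zero] with ω g1 g2 g3 g4 g5 g0 w hw
  have hS : 0 ≤ ∑ i, |C i| := Finset.sum_nonneg fun _ _ => abs_nonneg _
  have h5 : D.A (∑ i, algebraMap k E (c i) * x i) ω ≤ (∑ i, |C i| + 1) * Real.exp w := by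
    refine g4.trans ?_
    have h6 : ∀ i ∈ (Finset.univ : Finset ι), D.A (algebraMap k E (c i) * x i) ω ≤
        |C i| * Real.exp w := by
      intro i hi
      rw [g3 i hi]
      by_cases hci : c i = 0
      · rw [hci, map_zero, g0, zero_mul]
        positivity
      · have h7 : D.A (x i) ω ≤ Real.exp w := by
          rw [← Real.log_le_iff_le_exp (g2 i hi)]
          exact hw i hci
        have h8 := g1 i hi
        have h9 := le_abs_self (C i)
        exact mul_le_mul (h8.trans h9) h7 (g2 i hi).le (abs_nonneg _)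
    refine (Finset.sum_le_sum h6).trans ?_
    rw [← Finset.sum_mul]
    have := Real.exp_pos w
    nlinarith
  unfold lg
  have h6 := Real.log_le_log g5 h5
  rw [Real.log_mul (by positivity) (Real.exp_pos _).ne', Real.log_exp] at h6
  exact h6

end Dict

end Pool.Agent.Y742.DI
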