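import Mathlib
import Pool.Agent.H159R3.Exp.Laur
import Pool.Agent.H159R3.Exp.Descend

/-!
Polynomials which are linear in some of the variables; lines in the fibres.
-/

set_option autoImplicit false

open Finset Module MvPolynomial Filter

namespace Pool.Agent.Y742.DI

open Pool.Agent.H159R3.Exp

/-- `F` has degree at most one in the variables outside `I` -/
def LinOut {k : Type} [CommSemiring k] {N : ℕ} (I : Finset (Fin N))
    (F : MvPolynomial (Fin N) k) : Prop :=
  ∀ s ∈ F.support, ∑ l ∈ Iᶜ, s l ≤ 1

/-- the variables outside `I` are replaced by zero -/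
def wI {A : Type} [Zero A] {N : ℕ} (I : Finset (Fin N)) (z : Fin N → A) (a : Fin N) : A :=
  if a ∈ I then z a else 0

theorem lin_eval {k A : Type} [CommRing k] [CommRing A] (φ : k →+* A) {N : ℕ}
    (I : Finset (Fin N)) (F : MvPolynomial (Fin N) k) (hF : LinOut I F) (z : Fin N → A) :
    eval₂ φ z F = eval₂ φ (wI I z) F +
      ∑ l ∈ Iᶜ, z l * eval₂ φ (wI I z) (pderiv l F) := by
  classical
  have h1 : ∀ l, eval₂ φ (wI I z) (pderiv l F) =
      ∑ s ∈ F.support, φ (coeff s F * s l) * ∏ a, wI I z a ^ (s - Finsupp.single l 1 : Fin N →₀ ℕ) a := by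
    intro l
    conv_lhs => rw [F.as_sum]
    rw [map_sum, eval₂_sum]
    refine Finset.sum_congr rfl fun s _ => ?_
    rw [pderiv_monomial, eval₂_monomial, Finsupp.prod_fintype _ _ (fun _ => pow_zero _)]
  rw [eval₂_eq', eval₂_eq']
  simp only [h1, Finset.mul_sum]
  rw [Finset.sum_comm, ← Finset.sum_add_distrib]
  refine Finset.sum_congr rfl fun s hs => ?_
  have h2 := hF s hs
  by_cases h0 : ∀ l ∈ Iᶜ, s l = 0
  · have h3 : ∏ a, wI I z a ^ s a = ∏ a, z a ^ s a := by
      refine Finset.prod_congr rfl fun a _ => ?_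
      by_cases ha : a ∈ I
      · unfold wI
        rw [if_pos ha]
      · rw [h0 a (Finset.mem_compl.2 ha), pow_zero, pow_zero]
    rw [h3, Finset.sum_eq_zero, add_zero]
    intro l hl
    rw [h0 l hl]
    simp
  · push Not at h0
    obtain ⟨l0, hl0, hne⟩ := h0
    have h3 : s l0 ≤ ∑ l ∈ Iᶜ, s l :=
      Finset.single_le_sum (f := fun l => s l) (fun _ _ => Nat.zero_le _) hl0
    have h4 : s l0 = 1 := by omega
    have h5 : ∀ l ∈ Iᶜ, l ≠ l0 → s l = 0 := by
      intro l hl hll
      have h6 := Finset.add_sum_erase _ (fun l => s l) hl0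
      have h7 : s l ≤ ∑ l ∈ (Iᶜ).erase l0, s l :=
        Finset.single_le_sum (f := fun l => s l) (fun _ _ => Nat.zero_le _)
          (Finset.mem_erase.2 ⟨hll, hl⟩)
      omega
    have h6 : ∏ a, wI I z a ^ s a = 0 := by
      refine Finset.prod_eq_zero (Finset.mem_univ l0) ?_
      unfold wI
      rw [if_neg (Finset.mem_compl.1 hl0), h4, pow_one]
    rw [h6, mul_zero, zero_add, Finset.sum_eq_single l0]
    · rw [h4, Nat.cast_one, mul_one]
      have h7 : ∏ a, wI I z a ^ (s - Finsupp.single l0 1 : Fin N →₀ ℕ) a =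
          ∏ a ∈ Finset.univ.erase l0, z a ^ s a := by
        rw [← Finset.mul_prod_erase _ _ (Finset.mem_univ l0)]
        have h8 : (s - Finsupp.single l0 1 : Fin N →₀ ℕ) l0 = 0 := by
          rw [Finsupp.tsub_apply, Finsupp.single_eq_same, h4]
        rw [h8, pow_zero, one_mul]
        refine Finset.prod_congr rfl fun a ha => ?_
        have ha' := (Finset.mem_erase.1 ha).1
        rw [Finsupp.tsub_apply, Finsupp.single_eq_of_ne ha', Nat.sub_zero]
        by_cases haI : a ∈ I
        · unfold wI
          rw [if_pos haI]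
        · rw [h5 a (Finset.mem_compl.2 haI) ha', pow_zero, pow_zero]
      rw [h7, ← Finset.mul_prod_erase _ (fun a => z a ^ s a) (Finset.mem_univ l0), h4, pow_one]
      ring
    · intro l hl hll
      rw [h5 l hl hll]
      simp
    · intro h
      exact absurd hl0 h

/-- a nonconstant curve with Laurent coordinates through `z` -/
def LCurve {k E : Type} [Field k] [Field E] [Algebra k E] {N : ℕ} {ι : Type}
    (F : ι → MvPolynomial (Fin N) k) (z : Fin N → E) : Prop :=
  ∃ v : E → Fin N → E, (∀ a, Laur fun t => v t a) ∧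
    (∀ i t, t ≠ 0 → aeval (v t) (F i) = 0) ∧ v 1 = z ∧ ∃ (κ : ℕ) (a : Fin N), v (2 ^ κ) a ≠ v 1 a

theorem wI_comp {A B : Type} [Semiring A] [Semiring B] (φ : A →+* B) {N : ℕ} (I : Finset (Fin N))
    (z : Fin N → A) : (fun a => φ (wI I z a)) = wI I (fun a => φ (z a)) := by
  funext a
  unfold wI
  split_ifs
  · rfl
  · exact map_zero φ

theorem line_or_field {k P E : Type} [Field k] [Field P] [Field E] [Algebra k P] [Algebra k E]
    [Algebra P E] [IsScalarTower k P E] {N : ℕ} {ι : Type}
    (F : ι → MvPolynomial (Fin N) k) (I : Finset (Fin N)) (hF : ∀ i, LinOut I (F i))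
    (z : Fin N → E) (hz : ∀ a ∈ I, z a ∈ (algebraMap P E).range)
    (hFz : ∀ i, aeval z (F i) = 0) :
    LCurve F z ∨ ∃ z' : Fin N → P, (∀ a, algebraMap P E (z' a) = z a) ∧
      ∀ i, aeval z' (F i) = 0 := by
  classical
  obtain ⟨ρ, hρ⟩ := (Algebra.linearMap P E).exists_leftInverse_of_injective
    (LinearMap.ker_eq_bot.2 (algebraMap P E).injective)
  have hρ1 : ∀ c : P, ρ (algebraMap P E c) = c := fun c => DFunLike.congr_fun hρ c
  let z' : Fin N → P := fun a => ρ (z a)
  have hzI : ∀ a ∈ I, algebraMap P E (z' a) = z a := by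
    intro a ha
    obtain ⟨c, hc⟩ := hz a ha
    simp only [z']
    rw [← hc, hρ1]
  have hw : wI I z = fun a => algebraMap P E (wI I z' a) := by
    rw [wI_comp]
    funext a
    unfold wI
    by_cases ha : a ∈ I
    · rw [if_pos ha, if_pos ha]
      exact (hzI a ha).symm
    · rw [if_neg ha, if_neg ha]
  have hev : ∀ G : MvPolynomial (Fin N) k,
      eval₂ (algebraMap k E) (wI I z) G = algebraMap P E (eval₂ (algebraMap k P) (wI I z') G) := by
    intro G
    rw [hw, hom_eval₂, IsScalarTower.algebraMap_eq k P E]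
  have hlin : ∀ i, algebraMap P E (eval₂ (algebraMap k P) (wI I z') (F i)) +
      ∑ l ∈ Iᶜ, z l * algebraMap P E (eval₂ (algebraMap k P) (wI I z') (pderiv l (F i))) = 0 := by
    intro i
    have h1 := lin_eval (algebraMap k E) I (F i) (hF i) z
    rw [← aeval_def, hFz i, hev] at h1
    simp only [hev] at h1
    exact h1.symm
  have hz' : ∀ i, aeval z' (F i) = 0 := by
    intro i
    have h1 := congrArg ρ (hlin i)
    rw [map_add, map_sum, map_zero, hρ1] at h1
    rw [aeval_def, lin_eval (algebraMap k P) I (F i) (hF i) z', ← h1]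
    congr 1
    refine Finset.sum_congr rfl fun l _ => ?_
    rw [mul_comm (z l), ← Algebra.smul_def, map_smul, smul_eq_mul, mul_comm]
  by_cases hy : ∀ a, algebraMap P E (z' a) = z a
  · exact Or.inr ⟨z', hy, hz'⟩
  · left
    push Not at hy
    obtain ⟨a0, ha0⟩ := hy
    let y : Fin N → E := fun a => z a - algebraMap P E (z' a)
    have hyI : ∀ a ∈ I, y a = 0 := fun a ha => by
      simp only [y]
      rw [hzI a ha, sub_self]
    have hker : ∀ i, ∑ l ∈ Iᶜ, y l *
        algebraMap P E (eval₂ (algebraMap k P) (wI I z') (pderiv l (F i))) = 0 := by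
      intro i
      have h1 := hz' i
      rw [aeval_def, lin_eval (algebraMap k P) I (F i) (hF i) z'] at h1
      have h2 := congrArg (algebraMap P E) h1
      rw [map_add, map_sum, map_zero] at h2
      have h3 := hlin i
      simp only [y, sub_mul, Finset.sum_sub_distrib]
      simp only [map_mul] at h2
      linear_combination h3 - h2
    refine ⟨fun t a => z a + (t - 1) * y a, fun a => ?_, fun i t _ => ?_, ?_, 1, a0, ?_⟩
    · refine (Laur.const (z a)).add (Laur.mul ?_ (Laur.const (y a)))
      have h1 : (fun t : E => t - 1) = fun t => t + (-1) := by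
        funext t
        ring
      rw [h1]
      exact Laur.id.add (Laur.const (-1))
    · have hw2 : wI I (fun a => z a + (t - 1) * y a) = wI I z := by
        funext a
        unfold wI
        by_cases ha : a ∈ I
        · rw [if_pos ha, if_pos ha]
          show z a + (t - 1) * y a = z a
          rw [hyI a ha, mul_zero, add_zero]
        · rw [if_neg ha, if_neg ha]
      rw [aeval_def, lin_eval (algebraMap k E) I (F i) (hF i), hw2]
      simp only [hev]
      have h1 := hlin i
      have h2 := hker i
      have h3 : ∑ l ∈ Iᶜ, (z l + (t - 1) * y l) *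
          algebraMap P E (eval₂ (algebraMap k P) (wI I z') (pderiv l (F i))) =
          ∑ l ∈ Iᶜ, z l * algebraMap P E (eval₂ (algebraMap k P) (wI I z') (pderiv l (F i))) +
          (t - 1) * ∑ l ∈ Iᶜ, y l *
            algebraMap P E (eval₂ (algebraMap k P) (wI I z') (pderiv l (F i))) := by
        rw [Finset.mul_sum, ← Finset.sum_add_distrib]
        exact Finset.sum_congr rfl fun l _ => by ring
      rw [h3, h2, mul_zero, add_zero, h1]
    · funext a
      ring
    · intro h
      apply ha0
      simp only [y] at h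
      have h2 : z a0 + (2 ^ 1 - 1) * (z a0 - algebraMap P E (z' a0)) =
          z a0 + (1 - 1) * (z a0 - algebraMap P E (z' a0)) := h
      have h3 : z a0 - algebraMap P E (z' a0) = 0 := by linear_combination h2
      exact (sub_eq_zero.1 h3).symm

end Pool.Agent.Y742.DI
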