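import Mathlib
import Pool.Agent.Y742.DI.Lin
import Pool.Agent.W235.RM.Curve

/-!
Descent of Laurent curves over arbitrary extension fields to number fields.
-/

set_option autoImplicit false

open Finset Module MvPolynomial Filter

namespace Pool.Agent.Y742.DI

open Pool.Agent.H159R3.Exp Pool.Agent.W235.RM
open scoped NumberField

theorem descendE {K : Type} [Field K] [NumberField K] {n : ℕ} {ι : Type}
    (F : ι → MvPolynomial (Fin n) K) (W : MvPolynomial (Fin n ⊕ Fin n) K)
    {E : Type} [Field E] [CharZero E] [Algebra K E]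
    (v : E → Fin n → E) (hv : ∀ j, Laur (fun t => v t j))
    (hF : ∀ i t, t ≠ 0 → aeval (v t) (F i) = 0) (k1 : ℕ)
    (hW : aeval (Sum.elim (v 1) (v (2 ^ k1))) W ≠ 0) :
    ∃ (L : Type) (_ : Field L) (_ : Algebra K L) (_ : NumberField L) (_ : FiniteDimensional K L)
      (v' : L → Fin n → L), (∀ j, Laur (fun t => v' t j)) ∧
        (∀ i t, t ≠ 0 → aeval (v' t) (F i) = 0) ∧
        aeval (Sum.elim (v' 1) (v' (2 ^ k1))) W ≠ 0 := by
  classical
  obtain ⟨e, Q, hQ⟩ := Laur.common v hv
  let D := Finset.univ.sup (fun j => (Q j).natDegree)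
  let κ0 : Fin n × Fin (D + 1) → E := fun p => (Q p.1).coeff p.2
  have hκ0 : ∀ t, t ≠ 0 → cpt e κ0 t = v t := by
    intro t ht
    funext j
    rw [hQ t ht j]
    unfold cpt
    congr 1
    rw [Polynomial.eval_eq_sum_range' (n := D + 1) (Nat.lt_succ_of_le (Finset.le_sup
      (f := fun j => (Q j).natDegree) (Finset.mem_univ j)))]
    rw [Finset.sum_range]
  have hgF : ∀ (M : Type) [Field M] [Algebra K M] (κ : Fin n × Fin (D + 1) → M) (k : ℕ)
      (p : MvPolynomial (Fin n) K),
      aeval κ (bind₁ (gpt (K := K) (D := D) e k) p) = aeval (cpt e κ (2 ^ k)) p := by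
    intro M _ _ κ k p
    rw [aeval_bind₁]
    congr 2
    funext j
    rw [aeval_gpt]
  have hgW : ∀ (M : Type) [Field M] [Algebra K M] (κ : Fin n × Fin (D + 1) → M),
      aeval κ (bind₁ (Sum.elim (gpt (K := K) (D := D) e 0) (gpt (K := K) (D := D) e k1)) W)
        = aeval (Sum.elim (cpt e κ 1) (cpt e κ (2 ^ k1))) W := by
    intro M _ _ κ
    rw [aeval_bind₁]
    congr 2
    funext j
    rcases j with j | j
    · simp only [Sum.elim_inl]
      rw [aeval_gpt, pow_zero]
    · simp only [Sum.elim_inr]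
      rw [aeval_gpt]
  obtain ⟨κ, hκ, hκW⟩ := H952R2.Sextic.transfer (k := K) (kb := AlgebraicClosure K)
    (fun x : ι × ℕ => bind₁ (gpt (K := K) (D := D) e x.2) (F x.1))
    (bind₁ (Sum.elim (gpt (K := K) (D := D) e 0) (gpt (K := K) (D := D) e k1)) W)
    ⟨κ0, fun x => by
      rw [hgF E, hκ0 _ (pow_ne_zero _ two_ne_zero)]
      exact hF _ _ (pow_ne_zero _ two_ne_zero), by
      rw [hgW E, hκ0 _ (pow_ne_zero _ two_ne_zero), hκ0 _ one_ne_zero]
      exact hW⟩
  let L := IntermediateField.adjoin K (Set.range κ)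
  have hfinL : FiniteDimensional K L := by
    apply IntermediateField.finiteDimensional_adjoin
    intro x _
    exact Algebra.IsIntegral.isIntegral x
  have hNF : NumberField L := NumberField.of_module_finite K L
  let κL : Fin n × Fin (D + 1) → L :=
    fun j => ⟨κ j, IntermediateField.subset_adjoin K _ ⟨j, rfl⟩⟩
  refine ⟨L, inferInstance, inferInstance, hNF, hfinL, cpt e κL, cpt_laur e κL, ?_, ?_⟩
  · intro i
    apply Laur.zero_of_zero (Laur.eval₂ (algebraMap K L) (cpt e κL) (cpt_laur e κL) (F i))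
    intro m
    change aeval (cpt e κL (2 ^ m)) (F i) = 0
    rw [← hgF L]
    apply (algebraMap L (AlgebraicClosure K)).injective
    rw [map_zero, ← hκ (i, m), ← aeval_algebraMap_apply]
    rfl
  · rw [← hgW L]
    intro h0
    apply hκW
    have h1 := congrArg (algebraMap L (AlgebraicClosure K)) h0
    rw [map_zero, ← aeval_algebraMap_apply] at h1
    exact h1

theorem hasLaurent_of_LCurve {K : Type} [Field K] [NumberField K] {ι κ : Type} {n : ℕ}
    (F : ι → MvPolynomial (Fin n) (𝓞 K)) (G : κ → MvPolynomial (Fin n) (𝓞 K))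
    {k E : Type} [Field k] [Field E] [CharZero E] [Algebra k E] (φ : K →+* k) (z : Fin n → E)
    (hL : LCurve (fun i => map (φ.comp (algebraMap (𝓞 K) K)) (F i)) z)
    (hG : ∃ l, aeval z (map (φ.comp (algebraMap (𝓞 K) K)) (G l)) ≠ 0) : HasLaurent F G := by
  classical
  obtain ⟨v, hv, hvF, hv1, k1, j1, hk1⟩ := hL
  obtain ⟨i', hi'⟩ := hG
  let _ : Algebra K E := ((algebraMap k E).comp φ).toAlgebra
  have hmap : ∀ (M : Type) [Field M] [Algebra K M] (y : Fin n → M)
      (p : MvPolynomial (Fin n) (𝓞 K)), aeval y (map (algebraMap (𝓞 K) K) p)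
        = eval₂ ((algebraMap K M).comp (algebraMap (𝓞 K) K)) y p := by
    intro M _ _ y p
    rw [aeval_def, eval₂_map]
  have hmapE : ∀ (y : Fin n → E) (p : MvPolynomial (Fin n) (𝓞 K)),
      aeval y (map (algebraMap (𝓞 K) K) p) =
        aeval y (map (φ.comp (algebraMap (𝓞 K) K)) p) := by
    intro y p
    rw [aeval_def, eval₂_map, aeval_def, eval₂_map]
    rfl
  obtain ⟨L, _, _, hNF, -, v', hv', hv'F, hv'W⟩ := descendE
    (fun i => map (algebraMap (𝓞 K) K) (F i))
    (rename Sum.inl (map (algebraMap (𝓞 K) K) (G i')) * (X (Sum.inr j1) - X (Sum.inl j1))) v hv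
    (fun i t ht => by
      rw [hmapE]
      exact hvF i t ht) k1 (by
    rw [map_mul, aeval_rename, map_sub, aeval_X, aeval_X]
    simp only [Sum.elim_comp_inl, Sum.elim_inr, Sum.elim_inl]
    refine mul_ne_zero ?_ (sub_ne_zero.mpr hk1)
    rw [hmapE, hv1]
    exact hi')
  rw [map_mul, aeval_rename, map_sub, aeval_X, aeval_X] at hv'W
  simp only [Sum.elim_comp_inl, Sum.elim_inr, Sum.elim_inl] at hv'W
  refine ⟨L, inferInstance, hNF, inferInstance, v', hv', fun i t ht => ?_, ⟨i', ?_⟩, k1, j1, ?_⟩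
  · rw [← hmap L]
    exact hv'F i t ht
  · rw [← hmap L]
    exact left_ne_zero_of_mul hv'W
  · exact sub_ne_zero.mp (right_ne_zero_of_mul hv'W)

end Pool.Agent.Y742.DI
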