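import Mathlib

/-!
Echelon bases, and the number of monomials of bounded degree.
-/

set_option autoImplicit false

open Finset Module

namespace Pool.Agent.Y742.DI

section ech

variable {k : Type} [Field k] {B : Type} [Fintype B]

theorem ech (o : B → ℕ) (ho : Function.Injective o) (W : Submodule k (B → k)) :
    ∃ (τ : Fin (finrank k W) → B) (f : Fin (finrank k W) → (B → k)), Function.Injective τ ∧
      LinearIndependent k f ∧ Submodule.span k (Set.range f) = W ∧
      ∀ a b, o (τ a) < o b → f a b = 0 := by
  classical
  let T : Type := {b : B // ∃ g ∈ W, g b ≠ 0 ∧ ∀ b', o b < o b' → g b' = 0}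
  choose g hgW hg0 hgz using fun b : T => b.2
  have hli : LinearIndependent k g := by
    rw [Fintype.linearIndependent_iff]
    intro c hc
    by_contra hne
    push Not at hne
    obtain ⟨b0, hb0⟩ := hne
    obtain ⟨b, hb, hmax⟩ := Finset.exists_max_image
      (Finset.univ.filter fun b : T => c b ≠ 0) (fun b => o b.1)
      ⟨b0, Finset.mem_filter.2 ⟨Finset.mem_univ _, hb0⟩⟩
    have h1 := congrFun hc b.1
    rw [Finset.sum_apply, Finset.sum_eq_single b] at h1
    · simp only [Pi.smul_apply, smul_eq_mul, Pi.zero_apply] at h1
      exact mul_ne_zero (Finset.mem_filter.1 hb).2 (hg0 b) h1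
    · intro b' _ hbb
      by_cases hc' : c b' = 0
      · simp [hc']
      · have h2 := hmax b' (Finset.mem_filter.2 ⟨Finset.mem_univ _, hc'⟩)
        have h3 : o b'.1 ≠ o b.1 := fun h => hbb (Subtype.ext (ho h))
        rw [Pi.smul_apply, hgz b' b.1 (lt_of_le_of_ne h2 h3), smul_zero]
    · intro h
      exact absurd (Finset.mem_univ _) h
  have hspan : ∀ n : ℕ, ∀ f ∈ W, (∀ b, f b ≠ 0 → o b < n) →
      f ∈ Submodule.span k (Set.range g) := by
    intro n
    induction n with
    | zero =>
      intro f _ hf
      have : f = 0 := by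
        funext b
        by_contra h
        exact absurd (hf b h) (Nat.not_lt_zero _)
      rw [this]
      exact Submodule.zero_mem _
    | succ n ih =>
      intro f hfW hf
      by_cases h : ∃ b, o b = n ∧ f b ≠ 0
      · obtain ⟨b, hbn, hfb⟩ := h
        have hz : ∀ b', o b < o b' → f b' = 0 := by
          intro b' hb'
          by_contra hne
          have := hf b' hne
          omega
        let t : T := ⟨b, f, hfW, hfb, hz⟩
        have h1 : f - (f b / g t b) • g t ∈ Submodule.span k (Set.range g) := by
          refine ih _ (W.sub_mem hfW (W.smul_mem _ (hgW t))) ?_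
          intro b' hb'
          by_contra hlt
          push Not at hlt
          apply hb'
          rcases Nat.lt_or_ge n (o b') with h2 | h2
          · have h3 : o b < o b' := by omega
            rw [Pi.sub_apply, Pi.smul_apply, hz b' h3, hgz t b' h3, smul_zero, sub_zero]
          · have h3 : o b' = o b := by omega
            have h4 : b' = b := ho h3
            have h5 : g t b ≠ 0 := hg0 t
            rw [h4, Pi.sub_apply, Pi.smul_apply, smul_eq_mul, div_mul_cancel₀ _ h5, sub_self]
        have h2 : f = (f - (f b / g t b) • g t) + (f b / g t b) • g t := by abel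
        rw [h2]
        exact Submodule.add_mem _ h1 (Submodule.smul_mem _ _ (Submodule.subset_span ⟨t, rfl⟩))
      · push Not at h
        refine ih f hfW fun b hb => ?_
        have h1 := hf b hb
        have h2 : o b ≠ n := fun h' => hb (h b h')
        omega
  have hspan' : Submodule.span k (Set.range g) = W := by
    apply le_antisymm
    · rw [Submodule.span_le]
      rintro _ ⟨b, rfl⟩
      exact hgW b
    · intro f hf
      refine hspan (∑ b, o b + 1) f hf fun b _ => ?_
      have := Finset.single_le_sum (f := o) (fun _ _ => Nat.zero_le _) (Finset.mem_univ b)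
      omega
  have hcard : Fintype.card T = finrank k W := by
    have h1 := finrank_span_eq_card hli
    have h2 : finrank k (Submodule.span k (Set.range g)) = finrank k W :=
      congrArg (fun V : Submodule k (B → k) => finrank k V) hspan'
    omega
  let e : Fin (finrank k W) ≃ T := (Fintype.equivFinOfCardEq hcard).symm
  refine ⟨fun a => (e a).1, fun a => g (e a), fun a a' h => e.injective (Subtype.ext h),
    hli.comp e e.injective, ?_, fun a b h => hgz (e a) b h⟩
  refine Eq.trans ?_ hspan'
  exact congrArg _ (e.surjective.range_comp g)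

/-- orderings adapted to a weight -/
theorem exists_order (w : B → ℝ) : ∃ e : B ≃ Fin (Fintype.card B),
    ∀ a b, (e a : ℕ) ≤ e b → w a ≤ w b := by
  classical
  let e0 : B ≃ Fin (Fintype.card B) := Fintype.equivFin B
  let s := Tuple.sort (w ∘ e0.symm)
  have hs : Monotone ((w ∘ e0.symm) ∘ s) := Tuple.monotone_sort _
  refine ⟨e0.trans s.symm, fun a b h => ?_⟩
  have h1 : (e0.trans s.symm) a ≤ (e0.trans s.symm) b := h
  have h2 := hs h1
  simpa using h2

end ech

section count

/-- exponents of bounded degree -/
def Sx (m M : ℕ) : Finset (Fin m → ℕ) :=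
  (Fintype.piFinset fun _ => Finset.range (M + 1)).filter fun a => ∑ i, a i ≤ M

theorem mem_Sx {m M : ℕ} (a : Fin m → ℕ) : a ∈ Sx m M ↔ ∑ i, a i ≤ M := by
  unfold Sx
  rw [Finset.mem_filter, Fintype.mem_piFinset]
  constructor
  · exact fun h => h.2
  · intro h
    refine ⟨fun i => ?_, h⟩
    rw [Finset.mem_range]
    have := Finset.single_le_sum (f := a) (fun _ _ => Nat.zero_le _) (Finset.mem_univ i)
    omega

theorem Sx_shift {m : ℕ} (M : ℕ) (v : Fin m → ℕ) (hv : ∑ i, v i ≤ M) :
    ((Sx m M).filter fun a => ∀ i, v i ≤ a i).card = (Sx m (M - ∑ i, v i)).card := by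
  refine (Finset.card_bij (fun a _ => fun i => a i + v i) ?_ ?_ ?_).symm
  · intro a ha
    rw [mem_Sx] at ha
    rw [Finset.mem_filter, mem_Sx]
    refine ⟨?_, fun i => Nat.le_add_left _ _⟩
    rw [Finset.sum_add_distrib]
    omega
  · intro a _ b _ h
    funext i
    have h1 : a i + v i = b i + v i := congrFun h i
    omega
  · intro b hb
    rw [Finset.mem_filter, mem_Sx] at hb
    refine ⟨fun i => b i - v i, ?_, ?_⟩
    · rw [mem_Sx]
      have h1 : ∑ i, (b i - v i) + ∑ i, v i = ∑ i, b i := by
        rw [← Finset.sum_add_distrib]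
        exact Finset.sum_congr rfl fun i _ => Nat.sub_add_cancel (hb.2 i)
      omega
    · funext i
      exact Nat.sub_add_cancel (hb.2 i)

theorem Sx_lower (m M : ℕ) (hm : 1 ≤ m) : (M + 1) ^ m ≤ m ^ m * (Sx m M).card := by
  have h1 : (Fintype.piFinset fun _ : Fin m => Finset.range (M / m + 1)) ⊆ Sx m M := by
    intro a ha
    rw [Fintype.mem_piFinset] at ha
    rw [mem_Sx]
    calc ∑ i, a i ≤ ∑ _i : Fin m, M / m := Finset.sum_le_sum fun i _ => by
          have := Finset.mem_range.1 (ha i)
          omega
      _ = m * (M / m) := by simp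
      _ ≤ M := Nat.mul_div_le M m
  have h2 := Finset.card_le_card h1
  rw [Fintype.card_piFinset] at h2
  simp only [Finset.card_range, Finset.prod_const, Finset.card_univ, Fintype.card_fin] at h2
  have h3 : M + 1 ≤ m * (M / m + 1) := by
    have := Nat.div_add_mod M m
    have := Nat.mod_lt M hm
    nlinarith
  calc (M + 1) ^ m ≤ (m * (M / m + 1)) ^ m := Nat.pow_le_pow_left h3 m
    _ = m ^ m * (M / m + 1) ^ m := mul_pow _ _ _
    _ ≤ _ := Nat.mul_le_mul_left _ h2

/-- the second difference is small -/
theorem Sx_diff (m d e : ℕ) (hm : 1 ≤ m) : ∀ M : ℕ, d + e ≤ M →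
    (M + 1) ^ 2 * ((Sx m M).card + (Sx m (M - (d + e))).card) ≤
      (M + 1) ^ 2 * ((Sx m (M - d)).card + (Sx m (M - e)).card) + d * e * (M + 1) ^ m := by
  classical
  intro M hM
  rcases Nat.lt_or_ge m 2 with hm2 | hm2
  · have hm1 : m = 1 := by omega
    subst hm1
    have hc : ∀ n, (Sx 1 n).card = n + 1 := by
      intro n
      rw [← Finset.card_range (n + 1)]
      refine Finset.card_bij (fun a _ => a 0) ?_ ?_ ?_
      · intro a ha
        rw [mem_Sx] at ha
        rw [Finset.mem_range]
        simp at ha
        omega
      · intro a _ b _ h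
        funext i
        rw [Subsingleton.elim i 0]
        exact h
      · intro b hb
        refine ⟨fun _ => b, ?_, rfl⟩
        rw [mem_Sx]
        rw [Finset.mem_range] at hb
        simp
        omega
    rw [hc, hc, hc, hc]
    have h1 : M + 1 + (M - (d + e) + 1) = M - d + 1 + (M - e + 1) := by omega
    rw [h1]
    exact Nat.le_add_right _ _
  · let i0 : Fin m := ⟨0, by omega⟩
    let i1 : Fin m := ⟨1, by omega⟩
    have hne : i0 ≠ i1 := by simp [i0, i1]
    have hP : ((Sx m M).filter fun a => d ≤ a i0).card = (Sx m (M - d)).card := by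
      have h1 := Sx_shift M (Pi.single i0 d) (by
        rw [Finset.sum_pi_single']; simp; omega)
      rw [Finset.sum_pi_single'] at h1
      simp only [Finset.mem_univ, if_true] at h1
      rw [← h1]
      congr 1
      refine Finset.filter_congr fun a _ => ?_
      constructor
      · intro h i
        by_cases hi : i = i0
        · rw [hi, Pi.single_eq_same]; exact h
        · rw [Pi.single_eq_of_ne hi]; exact Nat.zero_le _
      · intro h
        have := h i0
        rwa [Pi.single_eq_same] at this
    have hQ : ((Sx m M).filter fun a => e ≤ a i1).card = (Sx m (M - e)).card := by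
      have h1 := Sx_shift M (Pi.single i1 e) (by
        rw [Finset.sum_pi_single']; simp; omega)
      rw [Finset.sum_pi_single'] at h1
      simp only [Finset.mem_univ, if_true] at h1
      rw [← h1]
      congr 1
      refine Finset.filter_congr fun a _ => ?_
      constructor
      · intro h i
        by_cases hi : i = i1
        · rw [hi, Pi.single_eq_same]; exact h
        · rw [Pi.single_eq_of_ne hi]; exact Nat.zero_le _
      · intro h
        have := h i1
        rwa [Pi.single_eq_same] at this
    have hPQ : ((Sx m M).filter fun a => d ≤ a i0 ∧ e ≤ a i1).card =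
        (Sx m (M - (d + e))).card := by
      have hs : ∑ i, ((Pi.single i0 d : Fin m → ℕ) i + (Pi.single i1 e : Fin m → ℕ) i) = d + e := by
        rw [Finset.sum_add_distrib, Finset.sum_pi_single', Finset.sum_pi_single']
        simp
      have h1 := Sx_shift M (fun i => (Pi.single i0 d : Fin m → ℕ) i + (Pi.single i1 e : Fin m → ℕ) i)
        (by rw [hs]; exact hM)
      rw [hs] at h1
      rw [← h1]
      congr 1
      refine Finset.filter_congr fun a _ => ?_
      constructor
      · rintro ⟨h, h'⟩ i
        by_cases hi : i = i0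
        · rw [hi, Pi.single_eq_same, Pi.single_eq_of_ne hne, add_zero]; exact h
        · by_cases hi' : i = i1
          · rw [hi', Pi.single_eq_same, Pi.single_eq_of_ne (Ne.symm hne), zero_add]; exact h'
          · rw [Pi.single_eq_of_ne hi, Pi.single_eq_of_ne hi']; exact Nat.zero_le _
      · intro h
        have h2 := h i0
        have h3 := h i1
        rw [Pi.single_eq_same, Pi.single_eq_of_ne hne, add_zero] at h2
        rw [Pi.single_eq_same, Pi.single_eq_of_ne (Ne.symm hne), zero_add] at h3
        exact ⟨h2, h3⟩
    have hbad : ((Sx m M).filter fun a => ¬ d ≤ a i0 ∧ ¬ e ≤ a i1).card ≤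
        d * e * (M + 1) ^ (m - 2) := by
      have h1 : ((Sx m M).filter fun a => ¬ d ≤ a i0 ∧ ¬ e ≤ a i1) ⊆
          Fintype.piFinset (fun l => if l = i0 then Finset.range d else
            if l = i1 then Finset.range e else Finset.range (M + 1)) := by
        intro a ha
        rw [Finset.mem_filter, mem_Sx] at ha
        rw [Fintype.mem_piFinset]
        intro l
        by_cases h0 : l = i0
        · rw [if_pos h0, h0, Finset.mem_range]; omega
        · by_cases h1 : l = i1
          · rw [if_neg h0, if_pos h1, h1, Finset.mem_range]; omega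
          · rw [if_neg h0, if_neg h1, Finset.mem_range]
            have := Finset.single_le_sum (f := a) (fun _ _ => Nat.zero_le _) (Finset.mem_univ l)
            omega
      refine (Finset.card_le_card h1).trans ?_
      rw [Fintype.card_piFinset]
      rw [← Finset.mul_prod_erase _ _ (Finset.mem_univ i0),
        ← Finset.mul_prod_erase _ _ (Finset.mem_erase.2 ⟨Ne.symm hne, Finset.mem_univ i1⟩)]
      rw [if_pos rfl, if_neg (Ne.symm hne), if_pos rfl, Finset.card_range, Finset.card_range,
        ← mul_assoc]
      refine Nat.mul_le_mul_left _ (le_of_eq ?_)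
      rw [Finset.prod_congr rfl (g := fun _ => M + 1)]
      · rw [Finset.prod_const, Finset.card_erase_of_mem
          (Finset.mem_erase.2 ⟨Ne.symm hne, Finset.mem_univ i1⟩),
          Finset.card_erase_of_mem (Finset.mem_univ i0), Finset.card_univ, Fintype.card_fin]
        rfl
      · intro l hl
        rw [Finset.mem_erase, Finset.mem_erase] at hl
        rw [if_neg hl.2.1, if_neg hl.1, Finset.card_range]
    have hie : (Sx m M).card + ((Sx m M).filter fun a => d ≤ a i0 ∧ e ≤ a i1).card =
        ((Sx m M).filter fun a => d ≤ a i0).card + ((Sx m M).filter fun a => e ≤ a i1).card +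
          ((Sx m M).filter fun a => ¬ d ≤ a i0 ∧ ¬ e ≤ a i1).card := by
      have h1 := Finset.card_filter_add_card_filter_not (s := Sx m M) (fun a => d ≤ a i0)
      have h2 := Finset.card_filter_add_card_filter_not
        (s := (Sx m M).filter fun a => e ≤ a i1) (fun a => d ≤ a i0)
      have h3 := Finset.card_filter_add_card_filter_not
        (s := (Sx m M).filter fun a => ¬ d ≤ a i0) (fun a => e ≤ a i1)
      rw [Finset.filter_filter, Finset.filter_filter] at h2 h3
      have h4 : ((Sx m M).filter fun a => e ≤ a i1 ∧ ¬ d ≤ a i0) =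
          (Sx m M).filter fun a => ¬ d ≤ a i0 ∧ e ≤ a i1 :=
        Finset.filter_congr fun a _ => and_comm
      have h5 : ((Sx m M).filter fun a => e ≤ a i1 ∧ d ≤ a i0) =
          (Sx m M).filter fun a => d ≤ a i0 ∧ e ≤ a i1 :=
        Finset.filter_congr fun a _ => and_comm
      rw [h4, h5] at h2
      omega
    rw [hPQ, hP, hQ] at hie
    have hmm : (M + 1) ^ 2 * (M + 1) ^ (m - 2) = (M + 1) ^ m := by
      rw [← pow_add]
      congr 1
      omega
    calc (M + 1) ^ 2 * ((Sx m M).card + (Sx m (M - (d + e))).card) ≤
        (M + 1) ^ 2 * ((Sx m (M - d)).card + (Sx m (M - e)).card + d * e * (M + 1) ^ (m - 2)) := by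
          refine Nat.mul_le_mul_left _ ?_
          omega
      _ = _ := by
          rw [mul_add, ← hmm]
          ring

end count

end Pool.Agent.Y742.DI
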