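import Mathlib
import Pool.Agent.Y742.DI.Ech

/-!
The dimension of the space of combinations of two coprime polynomials.
-/

set_option autoImplicit false

open Finset Module MvPolynomial

namespace Pool.Agent.Y742.DI

variable {k : Type} [Field k] {m : ℕ}

/-- the exponent as a finitely supported function -/
noncomputable def fs (b : Fin m → ℕ) : Fin m →₀ ℕ := Finsupp.equivFunOnFinite.symm b

theorem fs_apply (b : Fin m → ℕ) (j : Fin m) : fs b j = b j := rfl

theorem fs_inj {a b : Fin m → ℕ} (h : fs a = fs b) : a = b :=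
  Finsupp.equivFunOnFinite.symm.injective h

theorem fs_coe (s : Fin m →₀ ℕ) : fs (fun j => s j) = s := by
  ext j
  rfl

theorem fs_sum (b : Fin m → ℕ) : ((fs b).sum fun _ e => e) = ∑ j, b j := by
  rw [Finsupp.sum_fintype _ _ (fun _ => rfl)]
  rfl

/-- the polynomial with given coefficients -/
noncomputable def toPol (k : Type) [Field k] (m n : ℕ) :
    ((Sx m n) → k) →ₗ[k] MvPolynomial (Fin m) k :=
  ∑ b : Sx m n, (monomial (fs b.1)) ∘ₗ (LinearMap.proj b)

theorem toPol_apply {n : ℕ} (f : (Sx m n) → k) :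
    toPol k m n f = ∑ b : Sx m n, monomial (fs b.1) (f b) := by
  unfold toPol
  rw [LinearMap.sum_apply]
  rfl

/-- the coefficients -/
noncomputable def coef (k : Type) [Field k] (m n : ℕ) :
    MvPolynomial (Fin m) k →ₗ[k] ((Sx m n) → k) :=
  LinearMap.pi fun b => lcoeff k (fs b.1)

theorem coef_apply {n : ℕ} (φ : MvPolynomial (Fin m) k) (b : Sx m n) :
    coef k m n φ b = coeff (fs b.1) φ := rfl

theorem coeff_toPol {n : ℕ} (f : (Sx m n) → k) (b : Sx m n) :
    coeff (fs b.1) (toPol k m n f) = f b := by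
  classical
  rw [toPol_apply, coeff_sum, Finset.sum_eq_single b]
  · rw [coeff_monomial, if_pos rfl]
  · intro c _ hc
    rw [coeff_monomial, if_neg]
    intro h
    exact hc (Subtype.ext (fs_inj h))
  · intro h
    exact absurd (Finset.mem_univ _) h

theorem coef_toPol {n : ℕ} (f : (Sx m n) → k) : coef k m n (toPol k m n f) = f := by
  funext b
  rw [coef_apply, coeff_toPol]

theorem toPol_deg {n : ℕ} (f : (Sx m n) → k) : (toPol k m n f).totalDegree ≤ n := by
  rw [toPol_apply]
  refine totalDegree_finsetSum_le fun b _ => (totalDegree_monomial_le _ _).trans ?_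
  have h1 := (mem_Sx b.1).1 b.2
  rw [← fs_sum] at h1
  exact h1

theorem toPol_coef {n : ℕ} (φ : MvPolynomial (Fin m) k) (h : φ.totalDegree ≤ n) :
    toPol k m n (coef k m n φ) = φ := by
  classical
  ext s
  by_cases hs : (fun j => s j) ∈ Sx m n
  · have h1 := coeff_toPol (coef k m n φ) ⟨_, hs⟩
    rw [coef_apply] at h1
    simp only [fs_coe] at h1
    exact h1
  · rw [mem_Sx, not_le] at hs
    have h1 : n < ∑ i ∈ s.support, s i := by
      refine lt_of_lt_of_le hs (le_of_eq ?_)
      symm
      refine Finset.sum_subset (Finset.subset_univ _) fun i _ hi => ?_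
      exact Finsupp.notMem_support_iff.1 hi
    rw [coeff_eq_zero_of_totalDegree_lt (lt_of_le_of_lt (toPol_deg _) h1),
      coeff_eq_zero_of_totalDegree_lt (lt_of_le_of_lt h h1)]

theorem dim_lower (p q : MvPolynomial (Fin m) k) (hq : q ≠ 0) (hpq : IsRelPrime q p) (M : ℕ)
    (hM : p.totalDegree + q.totalDegree ≤ M) (W : Submodule k ((Sx m M) → k))
    (hW : ∀ α β : MvPolynomial (Fin m) k, α.totalDegree ≤ M - p.totalDegree →
      β.totalDegree ≤ M - q.totalDegree → coef k m M (α * p + β * q) ∈ W) :
    (Sx m (M - p.totalDegree)).card + (Sx m (M - q.totalDegree)).card ≤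
      finrank k W + (Sx m (M - (p.totalDegree + q.totalDegree))).card := by
  classical
  set d := p.totalDegree with hd
  set e := q.totalDegree with he
  let Ψ : ((Sx m (M - d)) → k) × ((Sx m (M - e)) → k) →ₗ[k] ((Sx m M) → k) :=
    (coef k m M) ∘ₗ ((LinearMap.mulRight k p ∘ₗ toPol k m (M - d)).coprod
      (LinearMap.mulRight k q ∘ₗ toPol k m (M - e)))
  have hΨ : ∀ x, Ψ x = coef k m M (toPol k m (M - d) x.1 * p + toPol k m (M - e) x.2 * q) :=
    fun x => rfl
  have hdeg : ∀ x : ((Sx m (M - d)) → k) × ((Sx m (M - e)) → k),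
      (toPol k m (M - d) x.1 * p + toPol k m (M - e) x.2 * q).totalDegree ≤ M := by
    intro x
    refine (totalDegree_add _ _).trans (max_le ?_ ?_)
    · refine (totalDegree_mul _ _).trans ?_
      have := toPol_deg x.1
      omega
    · refine (totalDegree_mul _ _).trans ?_
      have := toPol_deg x.2
      omega
  have hrange : LinearMap.range Ψ ≤ W := by
    rintro _ ⟨x, rfl⟩
    rw [hΨ]
    exact hW _ _ (toPol_deg _) (toPol_deg _)
  let Θ : ((Sx m (M - (d + e))) → k) →ₗ[k] ((Sx m (M - d)) → k) × ((Sx m (M - e)) → k) :=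
    (coef k m (M - d) ∘ₗ LinearMap.mulRight k q ∘ₗ toPol k m (M - (d + e))).prod
      (coef k m (M - e) ∘ₗ LinearMap.mulRight k (-p) ∘ₗ toPol k m (M - (d + e)))
  have hΘ : ∀ y, Θ y = (coef k m (M - d) (toPol k m (M - (d + e)) y * q),
      coef k m (M - e) (toPol k m (M - (d + e)) y * (-p))) := fun y => rfl
  have hker : LinearMap.ker Ψ ≤ LinearMap.range Θ := by
    intro x hx
    rw [LinearMap.mem_ker, hΨ] at hx
    have h0 : toPol k m (M - d) x.1 * p + toPol k m (M - e) x.2 * q = 0 := by
      rw [← toPol_coef _ (hdeg x), hx, map_zero]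
    have h1 : q ∣ toPol k m (M - d) x.1 * p := by
      refine ⟨-toPol k m (M - e) x.2, ?_⟩
      linear_combination h0
    obtain ⟨γ, hγ⟩ := hpq.dvd_of_dvd_mul_right h1
    have hβ : toPol k m (M - e) x.2 = γ * (-p) := by
      have h2 : q * (toPol k m (M - e) x.2 - γ * (-p)) = 0 := by
        rw [hγ] at h0
        linear_combination h0
      exact sub_eq_zero.1 ((mul_eq_zero.1 h2).resolve_left hq)
    have hγd : γ.totalDegree ≤ M - (d + e) := by
      by_cases hγ0 : γ = 0
      · rw [hγ0, totalDegree_zero]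
        exact Nat.zero_le _
      · have h2 := totalDegree_mul_of_isDomain hq hγ0
        have h3 := toPol_deg x.1
        rw [hγ, h2] at h3
        omega
    refine ⟨coef k m (M - (d + e)) γ, ?_⟩
    rw [hΘ, toPol_coef _ hγd]
    refine Prod.ext ?_ ?_
    · show coef k m (M - d) (γ * q) = x.1
      rw [mul_comm, ← hγ, coef_toPol]
    · show coef k m (M - e) (γ * (-p)) = x.2
      rw [← hβ, coef_toPol]
  have h1 := LinearMap.finrank_range_add_finrank_ker Ψ
  have h2 : finrank k (LinearMap.range Ψ) ≤ finrank k W := Submodule.finrank_mono hrange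
  have h3 : finrank k (LinearMap.ker Ψ) ≤ (Sx m (M - (d + e))).card := by
    refine (Submodule.finrank_mono hker).trans ((LinearMap.finrank_range_le Θ).trans ?_)
    rw [Module.finrank_fintype_fun_eq_card, Fintype.card_coe]
  rw [Module.finrank_prod, Module.finrank_fintype_fun_eq_card,
    Module.finrank_fintype_fun_eq_card, Fintype.card_coe, Fintype.card_coe] at h1
  omega

end Pool.Agent.Y742.DI
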