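import Mathlib
import Pool.Agent.Y742.DI.Dict
import Pool.Agent.Y742.DI.Pol

/-!
The greatest common divisor method: the denominator of a rational function of units with integral
values has monomials of negligible mutual ratio.
-/

set_option autoImplicit false

open Finset Module MvPolynomial Filter

namespace Pool.Agent.Y742.DI

variable {k E : Type} [Field k] [Field E] [Algebra k E] (D : Dict k E) {m : ℕ}

/-- a monomial in the units -/
noncomputable def mon (X : Fin m → Eˣ) (a : Fin m → ℕ) : E := ∏ j, (X j : E) ^ a j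

theorem mon_ne (X : Fin m → Eˣ) (a : Fin m → ℕ) : mon X a ≠ 0 :=
  Finset.prod_ne_zero_iff.2 fun j _ => pow_ne_zero _ (X j).ne_zero

theorem mon_eq (X : Fin m → Eˣ) (a : Fin m → ℕ) :
    mon X a = ((∏ j, X j ^ a j : Eˣ) : E) := by
  unfold mon
  push_cast
  rfl

theorem aeval_fs (X : Fin m → Eˣ) (a : Fin m → ℕ) (c : k) :
    aeval (fun j => (X j : E)) (monomial (fs a) c) = algebraMap k E c * mon X a := by
  rw [aeval_monomial]
  congr 1
  unfold mon
  rw [Finsupp.prod_fintype _ _ (fun _ => pow_zero _)]
  rfl

theorem aeval_eq_sum (X : Fin m → Eˣ) (q : MvPolynomial (Fin m) k) :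
    aeval (fun j => (X j : E)) q =
      ∑ s : q.support, algebraMap k E (coeff s.1 q) * mon X (fun j => s.1 j) := by
  conv_lhs => rw [q.as_sum]
  rw [map_sum, ← Finset.sum_coe_sort]
  refine Finset.sum_congr rfl fun s _ => ?_
  have h1 := aeval_fs X (fun j => s.1 j) (coeff s.1 q)
  rw [fs_coe] at h1
  exact h1

/-- the size of a monomial -/
noncomputable def ell (X : Fin m → Eˣ) (a : Fin m → ℕ) (ω : D.Ω) : ℝ :=
  ∑ j, (a j : ℝ) * D.lg (X j) ω

theorem lg_mon (X : Fin m → Eˣ) (a : Fin m → ℕ) :
    ∀ᶠ ω in D.ev, D.lg (mon X a) ω = ell D X a ω := by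
  have h1 : ∀ᶠ ω in D.ev, ∀ j ∈ (Finset.univ : Finset (Fin m)),
      D.lg ((X j : E) ^ a j) ω = a j * D.lg (X j) ω :=
    (Filter.eventually_all_finset _).2 fun j _ => D.lg_pow _ _
  filter_upwards [h1, D.lg_prod Finset.univ (fun j => (X j : E) ^ a j)
    (fun j _ => pow_ne_zero _ (X j).ne_zero)] with ω h2 h3
  unfold ell mon
  rw [h3]
  exact Finset.sum_congr rfl fun j hj => h2 j hj

theorem ell_neg (X : Fin m → Eˣ) (hX : ∀ j, X j ∈ D.U) (a : Fin m → ℕ) :
    D.Neg (ell D X a) :=
  D.neg_sum Finset.univ (fun j ω => (a j : ℝ) * D.lg (X j) ω) fun j _ =>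
    D.neg_smul _ _ (Nat.cast_nonneg _) (D.unit_neg' _ (hX j))

theorem ell_neg' (X : Fin m → Eˣ) (hX : ∀ j, X j ∈ D.U) (a : Fin m → ℕ) :
    D.Neg (fun ω => -ell D X a ω) := by
  refine D.neg_mono _ _ (Filter.Eventually.of_forall fun ω => ?_)
    (D.neg_sum Finset.univ (fun j ω => (a j : ℝ) * -D.lg (X j) ω) fun j _ =>
      D.neg_smul _ _ (Nat.cast_nonneg _) (D.unit_neg_inv _ (hX j)))
  unfold ell
  rw [← Finset.sum_neg_distrib]
  exact Finset.sum_le_sum fun j _ => le_of_eq (by ring)

theorem mon_mem (X : Fin m → Eˣ) (hX : ∀ j, X j ∈ D.U) (a : Fin m → ℕ) : mon X a ∈ D.R :=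
  D.R.prod_mem fun j _ => D.R.pow_mem (D.unit_mem _ (hX j)) _

theorem aeval_mem (X : Fin m → Eˣ) (hX : ∀ j, X j ∈ D.U) (q : MvPolynomial (Fin m) k) :
    aeval (fun j => (X j : E)) q ∈ D.R := by
  rw [aeval_eq_sum]
  exact D.R.sum_mem fun s _ => D.R.mul_mem (D.const_mem _) (mon_mem D X hX _)

/-- the monomials are independent -/
theorem mon_indep (X : Fin m → Eˣ) (hind : AlgebraicIndependent k (fun j => (X j : E))) :
    LinearIndependent k (fun a : Fin m → ℕ => mon X a) := by
  have h1 : LinearIndependent k (fun s : Fin m →₀ ℕ => (monomial s (1 : k))) := by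
    have := (basisMonomials (Fin m) k).linearIndependent
    simpa using this
  have h2 := h1.map' (aeval (fun j => (X j : E)) : MvPolynomial (Fin m) k →ₐ[k] E).toLinearMap
    (LinearMap.ker_eq_bot.2 hind)
  have h3 := h2.comp (fun a : Fin m → ℕ => fs a) (fun a b h => fs_inj h)
  have h4 : ((fun s : Fin m →₀ ℕ => (aeval (fun j => (X j : E)) : MvPolynomial (Fin m) k →ₐ[k] E).toLinearMap
      (monomial s (1 : k))) ∘ fun a : Fin m → ℕ => fs a) = fun a => mon X a := by
    funext a
    show aeval (fun j => (X j : E)) (monomial (fs a) (1 : k)) = _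
    rw [aeval_fs, map_one, one_mul]
  rw [← h4]
  exact h3

/-- the value of a polynomial at units is not much smaller than its monomials -/
theorem low (X : Fin m → Eˣ) (hX : ∀ j, X j ∈ D.U)
    (hind : AlgebraicIndependent k (fun j => (X j : E))) (q : MvPolynomial (Fin m) k)
    (c : D.Ω → q.support) :
    D.Neg (fun ω => ell D X (fun j => (c ω).1 j) ω - D.lg (aeval (fun j => (X j : E)) q) ω) := by
  classical
  obtain ⟨qX, hqX⟩ : ∃ qX, qX = aeval (fun j => (X j : E)) q := ⟨_, rfl⟩
  rw [← hqX]
  let e : Fin q.support.card ≃ q.support := q.support.equivFin.symm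
  let μ : q.support → E := fun s => mon X (fun j => s.1 j)
  have hμ0 : ∀ s, μ s ≠ 0 := fun s => mon_ne X _
  have hμ : LinearIndependent k μ := by
    refine (mon_indep X hind).comp (fun s : q.support => (fun j => s.1 j : Fin m → ℕ)) ?_
    intro s t h
    apply Subtype.ext
    ext j
    exact congrFun h j
  have hsum : qX = ∑ s : q.support, coeff s.1 q • μ s := by
    rw [hqX, aeval_eq_sum]
    exact Finset.sum_congr rfl fun s _ => (Algebra.smul_def _ _).symm
  let B : q.support → Fin q.support.card → E := fun c a => if e a = c then qX else μ (e a)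
  have hB : ∀ c, LinearIndependent k (B c) := by
    intro c
    rw [Fintype.linearIndependent_iff]
    intro g hg
    -- the coefficients
    have h1 : ∑ s : q.support, ((if s = c then 0 else g (e.symm s)) +
        g (e.symm c) * coeff s.1 q) • μ s = 0 := by
      rw [← hg, ← Equiv.sum_comp e.symm (fun a => g a • B c a)]
      simp only [add_smul, Finset.sum_add_distrib, mul_smul]
      rw [← Finset.smul_sum, ← hsum]
      have h2 : ∀ s : q.support, g (e.symm s) • B c (e.symm s) =
          (if s = c then (0 : k) else g (e.symm s)) • μ s +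
            if s = c then g (e.symm c) • qX else 0 := by
        intro s
        simp only [B, Equiv.apply_symm_apply]
        by_cases h : s = c
        · subst h
          simp
        · simp [h]
      rw [Finset.sum_congr rfl fun s _ => h2 s, Finset.sum_add_distrib, Finset.sum_ite_eq']
      simp
    have h2 := Fintype.linearIndependent_iff.1 hμ _ h1
    have h3 : g (e.symm c) = 0 := by
      have h4 := h2 c
      rw [if_pos rfl, zero_add] at h4
      exact (mul_eq_zero.1 h4).resolve_right (mem_support_iff.1 c.2)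
    intro a
    by_cases ha : e a = c
    · have : a = e.symm c := by rw [← ha, Equiv.symm_apply_apply]
      rw [this, h3]
    · have h4 := h2 (e a)
      rw [if_neg ha, h3, zero_mul, add_zero, Equiv.symm_apply_apply] at h4
      exact h4
  have hspan : ∀ c, Submodule.span k (Set.range (B c)) = Submodule.span k (Set.range μ) := by
    intro c
    have hfin : FiniteDimensional k (Submodule.span k (Set.range μ)) :=
      FiniteDimensional.span_of_finite k (Set.finite_range μ)
    refine Submodule.eq_of_le_of_finrank_eq ?_ ?_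
    · rw [Submodule.span_le]
      rintro _ ⟨a, rfl⟩
      simp only [B]
      split_ifs
      · rw [hsum]
        exact Submodule.sum_mem _ fun s _ =>
          Submodule.smul_mem _ _ (Submodule.subset_span ⟨s, rfl⟩)
      · exact Submodule.subset_span ⟨_, rfl⟩
    · rw [finrank_span_eq_card (hB c), finrank_span_eq_card hμ, Fintype.card_fin,
        Fintype.card_coe]
  have key := D.smt q.support.card q.support B hB (fun c c' => by rw [hspan, hspan])
    (by
      intro c a
      simp only [B]
      split_ifs
      · rw [hqX]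
        exact aeval_mem D X hX q
      · exact mon_mem D X hX _) c
  have h2 := D.neg_sum Finset.univ (fun (s : q.support) ω => ell D X (fun j => s.1 j) ω)
    (fun s _ => ell_neg D X hX _)
  refine D.neg_mono _ _ ?_ (D.neg_add _ _ key h2)
  have h3 : ∀ᶠ ω in D.ev, ∀ s ∈ (Finset.univ : Finset q.support),
      D.lg (μ s) ω = ell D X (fun j => s.1 j) ω :=
    (Filter.eventually_all_finset _).2 fun s _ => lg_mon D X _
  filter_upwards [h3] with ω h4
  have h5 : ∑ a, Real.log (D.A (B (c ω) a) ω) =
      ∑ s : q.support, (if s = c ω then D.lg qX ω else D.lg (μ s) ω) := by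
    rw [← Equiv.sum_comp e]
    refine Finset.sum_congr rfl fun a _ => ?_
    simp only [B]
    split_ifs <;> rfl
  rw [h5]
  have h6 : ∀ s : q.support, (if s = c ω then D.lg qX ω else D.lg (μ s) ω) =
      ell D X (fun j => s.1 j) ω +
        if s = c ω then D.lg qX ω - ell D X (fun j => (c ω).1 j) ω else 0 := by
    intro s
    by_cases h : s = c ω
    · rw [if_pos h, if_pos h, h]
      ring
    · rw [if_neg h, if_neg h, h4 s (Finset.mem_univ _), add_zero]
  rw [Finset.sum_congr rfl fun s _ => h6 s, Finset.sum_add_distrib, Finset.sum_ite_eq']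
  simp only [Finset.mem_univ, if_true]
  linarith

end Pool.Agent.Y742.DI
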