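import Mathlib
import Pool.Agent.Y742.DI.Gcd

/-!
The greatest common divisor method: the main estimate.
-/

set_option autoImplicit false

open Finset Module MvPolynomial Filter

namespace Pool.Agent.Y742.DI

variable {k E : Type} [Field k] [Field E] [Algebra k E] (D : Dict k E) {m : ℕ}

/-- evaluation of coefficient vectors, divided by `y` -/
noncomputable def LL (k : Type) {E : Type} [Field k] [Field E] [Algebra k E] {m : ℕ} (X : Fin m → Eˣ) (y : E) (M : ℕ) : ((Sx m M) → k) →ₗ[k] E :=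
  ∑ b : Sx m M, (LinearMap.toSpanSingleton k E (mon X b.1 / y)) ∘ₗ (LinearMap.proj b)

theorem LL_apply (X : Fin m → Eˣ) (y : E) (M : ℕ) (f : (Sx m M) → k) :
    LL k X y M f = (∑ b : Sx m M, algebraMap k E (f b) * mon X b.1) / y := by
  unfold LL
  rw [LinearMap.sum_apply, Finset.sum_div]
  refine Finset.sum_congr rfl fun b _ => ?_
  show f b • (mon X b.1 / y) = _
  rw [Algebra.smul_def]
  ring

theorem LL_inj (X : Fin m → Eˣ) (hind : AlgebraicIndependent k (fun j => (X j : E))) (y : E)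
    (hy : y ≠ 0) (M : ℕ) : Function.Injective (LL k X y M) := by
  rw [← LinearMap.ker_eq_bot, LinearMap.ker_eq_bot']
  intro f hf
  rw [LL_apply, div_eq_zero_iff] at hf
  have h1 := hf.resolve_right hy
  have h2 : LinearIndependent k (fun b : Sx m M => mon X b.1) :=
    (mon_indep X hind).comp (fun b : Sx m M => b.1) Subtype.val_injective
  rw [Fintype.linearIndependent_iff] at h2
  funext b
  refine h2 f ?_ b
  rw [← h1]
  exact Finset.sum_congr rfl fun b _ => Algebra.smul_def _ _

theorem LL_coef (X : Fin m → Eˣ) (y : E) (M : ℕ) (φ : MvPolynomial (Fin m) k)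
    (h : φ.totalDegree ≤ M) : LL k X y M (coef k m M φ) = aeval (fun j => (X j : E)) φ / y := by
  rw [LL_apply]
  congr 1
  conv_rhs => rw [← toPol_coef φ h]
  rw [toPol_apply, map_sum]
  exact Finset.sum_congr rfl fun b _ => (aeval_fs X b.1 _).symm

/-- coefficient vectors with integral quotient -/
noncomputable def WW (X : Fin m → Eˣ) (y : E) (M : ℕ) : Submodule k ((Sx m M) → k) where
  carrier := {f | LL k X y M f ∈ D.R}
  add_mem' := by
    intro f g hf hg
    show LL k X y M (f + g) ∈ D.R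
    rw [map_add]
    exact D.R.add_mem hf hg
  zero_mem' := by
    show LL k X y M 0 ∈ D.R
    rw [map_zero]
    exact D.R.zero_mem
  smul_mem' := by
    intro c f hf
    show LL k X y M (c • f) ∈ D.R
    rw [map_smul, Algebra.smul_def]
    exact D.R.mul_mem (D.const_mem c) hf

theorem abs_ell_le (X : Fin m → Eˣ) (M : ℕ) (b : Sx m M) (ω : D.Ω) :
    |ell D X b.1 ω| ≤ M * ∑ j, |D.lg (X j) ω| := by
  unfold ell
  refine (Finset.abs_sum_le_sum_abs _ _).trans ?_
  rw [Finset.mul_sum]
  refine Finset.sum_le_sum fun j _ => ?_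
  rw [abs_mul, Nat.abs_cast]
  refine mul_le_mul_of_nonneg_right ?_ (abs_nonneg _)
  have h1 := (mem_Sx b.1).1 b.2
  have h2 := Finset.single_le_sum (f := b.1) (fun _ _ => Nat.zero_le _) (Finset.mem_univ j)
  exact_mod_cast h2.trans h1

/-- the estimate for one degree -/
theorem gcd_M (X : Fin m → Eˣ) (hX : ∀ j, X j ∈ D.U)
    (hind : AlgebraicIndependent k (fun j => (X j : E)))
    (q : MvPolynomial (Fin m) k) (hq : q ≠ 0) (M : ℕ)
    (c : D.Ω → q.support) :
    D.Neg (fun ω => finrank k (WW D X (aeval (fun j => (X j : E)) q) M) *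
        ell D X (fun j => (c ω).1 j) ω -
      (((Sx m M).card - finrank k (WW D X (aeval (fun j => (X j : E)) q) M) : ℕ) : ℝ) *
        (M * ∑ j, |D.lg (X j) ω|)) := by
  classical
  obtain ⟨y, hy⟩ : ∃ y, y = aeval (fun j => (X j : E)) q := ⟨_, rfl⟩
  have hy0 : y ≠ 0 := by
    rw [hy]
    intro h
    apply hq
    apply hind
    rw [map_zero]
    exact h
  have hlow := low D X hX hind q c
  rw [← hy] at hlow ⊢
  obtain ⟨W, hW⟩ : ∃ W, W = WW D X y M := ⟨_, rfl⟩
  rw [← hW]
  obtain ⟨N, hN⟩ : ∃ N, N = finrank k W := ⟨_, rfl⟩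
  rw [← hN]
  -- echelon bases
  have hech : ∀ e : Sx m M ≃ Fin (Fintype.card (Sx m M)), ∃ (τ : Fin N → Sx m M)
      (f : Fin N → ((Sx m M) → k)), Function.Injective τ ∧ LinearIndependent k f ∧
      Submodule.span k (Set.range f) = W ∧ ∀ a b, (e (τ a) : ℕ) < e b → f a b = 0 := by
    intro e
    rw [hN]
    exact ech (fun b => (e b : ℕ)) (fun a b h => e.injective (Fin.ext h)) W
  choose τ f hτ hf hfs hfz using hech
  let B : (Sx m M ≃ Fin (Fintype.card (Sx m M))) → Fin N → E := fun e a => LL k X y M (f e a)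
  have hinj := LL_inj X hind y hy0 M
  have hBne : ∀ e a, B e a ≠ 0 := by
    intro e a h
    have h1 : f e a = 0 := hinj (by rw [map_zero]; exact h)
    exact (hf e).ne_zero a h1
  choose s hs using fun ω : D.Ω => exists_order (fun b : Sx m M => ell D X b.1 ω)
  have key := D.smt N (Sx m M ≃ Fin (Fintype.card (Sx m M))) B
    (fun e => (hf e).map' (LL k X y M) (LinearMap.ker_eq_bot.2 hinj))
    (by
      have h1 : ∀ e, Submodule.span k (Set.range (B e)) = W.map (LL k X y M) := by
        intro e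
        rw [← hfs e, Submodule.map_span, ← Set.range_comp]
        rfl
      intro e e'
      rw [h1, h1])
    (by
      intro e a
      have h1 : f e a ∈ W := by
        rw [← hfs e]
        exact Submodule.subset_span ⟨a, rfl⟩
      rw [hW] at h1
      exact h1) s
  -- the upper bounds
  have hup : ∀ e : Sx m M ≃ Fin (Fintype.card (Sx m M)), ∀ a : Fin N, ∃ C : ℝ,
      ∀ᶠ ω in D.ev, ∀ w : ℝ, (∀ b, f e a b ≠ 0 → ell D X b.1 ω ≤ w) →
        D.lg (B e a) ω ≤ C + w - D.lg y ω := by
    intro e a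
    have h0 : ∑ b : Sx m M, algebraMap k E (f e a b) * mon X b.1 ≠ 0 := by
      intro h
      apply hBne e a
      simp only [B]
      rw [LL_apply, h, zero_div]
    obtain ⟨C, hC⟩ := D.lg_sum_le (f e a) (fun b : Sx m M => mon X b.1) (fun b => mon_ne X _) h0
    refine ⟨C, ?_⟩
    have h3 : ∀ᶠ ω in D.ev, ∀ b ∈ (Finset.univ : Finset (Sx m M)),
        D.lg (mon X b.1) ω = ell D X b.1 ω :=
      (Filter.eventually_all_finset _).2 fun b _ => lg_mon D X _
    filter_upwards [hC, D.lg_div _ _ h0 hy0, h3] with ω h1 h2 h4 w hw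
    have h5 : D.lg (B e a) ω = D.lg (∑ b : Sx m M, algebraMap k E (f e a b) * mon X b.1) ω -
        D.lg y ω := by
      rw [← h2]
      simp only [B]
      rw [LL_apply]
    rw [h5]
    have h6 := h1 w (fun b hb => by rw [h4 b (Finset.mem_univ _)]; exact hw b hb)
    linarith
  choose C hC using hup
  have hCs : ∀ᶠ ω in D.ev, ∀ e ∈ (Finset.univ : Finset (Sx m M ≃ Fin (Fintype.card (Sx m M)))),
      ∀ a ∈ (Finset.univ : Finset (Fin N)), ∀ w : ℝ, (∀ b, f e a b ≠ 0 → ell D X b.1 ω ≤ w) →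
        D.lg (B e a) ω ≤ C e a + w - D.lg y ω :=
    (Filter.eventually_all_finset _).2 fun e _ => (Filter.eventually_all_finset _).2
      fun a _ => hC e a
  obtain ⟨C0, hC0⟩ : ∃ C0 : ℝ, C0 = ∑ e : Sx m M ≃ Fin (Fintype.card (Sx m M)),
      ∑ a : Fin N, |C e a| := ⟨_, rfl⟩
  have hN' : N ≤ (Sx m M).card := by
    rw [hN]
    refine (Submodule.finrank_le _).trans ?_
    rw [Module.finrank_fintype_fun_eq_card, Fintype.card_coe]
  -- combination
  have hcomb := D.neg_add _ _ (D.neg_add _ _ key (D.neg_smul _ (N : ℝ) (Nat.cast_nonneg _) hlow))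
    (D.neg_add _ _ (D.neg_sum Finset.univ (fun (b : Sx m M) ω => ell D X b.1 ω)
      (fun b _ => ell_neg D X hX _)) (D.neg_const (N * C0)))
  refine D.neg_mono _ _ ?_ hcomb
  filter_upwards [hCs] with ω hω
  have h1 : ∀ a : Fin N, Real.log (D.A (B (s ω) a) ω) ≤
      C0 + ell D X (τ (s ω) a).1 ω - D.lg y ω := by
    intro a
    have h2 := hω (s ω) (Finset.mem_univ _) a (Finset.mem_univ _) (ell D X (τ (s ω) a).1 ω)
      (by
        intro b hb
        refine hs ω b (τ (s ω) a) ?_
        by_contra hlt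
        push Not at hlt
        exact hb (hfz (s ω) a b hlt))
    have h3 : C (s ω) a ≤ C0 := by
      rw [hC0]
      refine (le_abs_self _).trans ?_
      refine (Finset.single_le_sum (f := fun a => |C (s ω) a|) (fun _ _ => abs_nonneg _)
        (Finset.mem_univ a)).trans ?_
      exact Finset.single_le_sum (f := fun e => ∑ a : Fin N, |C e a|)
        (fun _ _ => Finset.sum_nonneg fun _ _ => abs_nonneg _) (Finset.mem_univ _)
    have h4 : Real.log (D.A (B (s ω) a) ω) = D.lg (B (s ω) a) ω := rfl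
    rw [h4]
    linarith
  have h2 : ∑ a : Fin N, Real.log (D.A (B (s ω) a) ω) ≤
      N * C0 + ∑ a, ell D X (τ (s ω) a).1 ω - N * D.lg y ω := by
    refine (Finset.sum_le_sum fun a _ => h1 a).trans (le_of_eq ?_)
    rw [Finset.sum_sub_distrib, Finset.sum_add_distrib, Finset.sum_const, Finset.sum_const,
      Finset.card_univ, Fintype.card_fin, nsmul_eq_mul, nsmul_eq_mul]
  -- the sum over the leads
  have h3 : ∑ a, ell D X (τ (s ω) a).1 ω =
      ∑ b ∈ Finset.univ.image (τ (s ω)), ell D X b.1 ω := by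
    rw [Finset.sum_image fun a _ b _ h => hτ (s ω) h]
  have h4 : ∑ b ∈ Finset.univ.image (τ (s ω)), ell D X b.1 ω +
      ∑ b ∈ (Finset.univ.image (τ (s ω)))ᶜ, ell D X b.1 ω = ∑ b : Sx m M, ell D X b.1 ω :=
    Finset.sum_add_sum_compl _ _
  have h5 : -(((Sx m M).card - N : ℕ) * (M * ∑ j, |D.lg (X j) ω|)) ≤
      ∑ b ∈ (Finset.univ.image (τ (s ω)))ᶜ, ell D X b.1 ω := by
    have h6 : ((Finset.univ.image (τ (s ω)))ᶜ).card = (Sx m M).card - N := by
      rw [Finset.card_compl, Finset.card_image_of_injective _ (hτ _), Finset.card_univ,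
        Fintype.card_fin, Fintype.card_coe]
    rw [← h6, ← nsmul_eq_mul, ← Finset.sum_const, ← Finset.sum_neg_distrib]
    refine Finset.sum_le_sum fun b _ => ?_
    have := abs_ell_le D X M b ω
    rw [abs_le] at this
    linarith [this.1]
  have h6 : ((N : ℕ) : ℝ) * (ell D X (fun j => (c ω).1 j) ω - D.lg y ω) =
      N * ell D X (fun j => (c ω).1 j) ω - N * D.lg y ω := by ring
  rw [h6]
  linarith

end Pool.Agent.Y742.DI
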