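import Mathlib
import Pool.Agent.Y742.DI.Gcd2

/-!
The greatest common divisor method: the conclusion.
-/

set_option autoImplicit false

open Finset Module MvPolynomial Filter

namespace Pool.Agent.Y742.DI

variable {k E : Type} [Field k] [Field E] [Algebra k E] (D : Dict k E) {m : ℕ}

theorem cod_bound (X : Fin m → Eˣ) (hX : ∀ j, X j ∈ D.U) (hm : 1 ≤ m)
    (hind : AlgebraicIndependent k (fun j => (X j : E)))
    (p q : MvPolynomial (Fin m) k) (hq : q ≠ 0) (hpq : IsRelPrime q p) (x : E) (hx : x ∈ D.R)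
    (hxe : x * aeval (fun j => (X j : E)) q = aeval (fun j => (X j : E)) p) (M : ℕ)
    (hM : p.totalDegree + q.totalDegree ≤ M) :
    (M + 1) ^ 2 * (Sx m M).card ≤
      (M + 1) ^ 2 * finrank k (WW D X (aeval (fun j => (X j : E)) q) M) +
        p.totalDegree * q.totalDegree * m ^ m * (Sx m M).card := by
  classical
  obtain ⟨y, hy⟩ : ∃ y, y = aeval (fun j => (X j : E)) q := ⟨_, rfl⟩
  have hy0 : y ≠ 0 := by
    rw [hy]
    intro h
    apply hq
    apply hind
    rw [map_zero]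
    exact h
  rw [← hy] at hxe ⊢
  have h1 := dim_lower p q hq hpq M hM (WW D X y M) (by
    intro α β hα hβ
    have hdeg : (α * p + β * q).totalDegree ≤ M := by
      refine (totalDegree_add _ _).trans (max_le ?_ ?_)
      · refine (totalDegree_mul _ _).trans ?_
        omega
      · refine (totalDegree_mul _ _).trans ?_
        omega
    show LL k X y M (coef k m M (α * p + β * q)) ∈ D.R
    rw [LL_coef X y M _ hdeg, map_add, map_mul, map_mul, ← hxe, ← hy]
    have h2 : (aeval (fun j => (X j : E)) α * (x * y) + aeval (fun j => (X j : E)) β * y) / y =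
        aeval (fun j => (X j : E)) α * x + aeval (fun j => (X j : E)) β := by
      field_simp
    rw [h2]
    exact D.R.add_mem (D.R.mul_mem (aeval_mem D X hX α) hx) (aeval_mem D X hX β))
  have h2 := Sx_diff m p.totalDegree q.totalDegree hm M hM
  have h3 := Sx_lower m M hm
  have h4 : p.totalDegree * q.totalDegree * (M + 1) ^ m ≤
      p.totalDegree * q.totalDegree * (m ^ m * (Sx m M).card) := Nat.mul_le_mul_left _ h3
  have h5 := Nat.mul_le_mul_left ((M + 1) ^ 2) h1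
  rw [mul_add, mul_add] at h2 h5
  rw [← mul_assoc] at h4
  omega

theorem gcd_neg (X : Fin m → Eˣ) (hX : ∀ j, X j ∈ D.U)
    (hind : AlgebraicIndependent k (fun j => (X j : E)))
    (p q : MvPolynomial (Fin m) k) (hq : q ≠ 0) (hpq : IsRelPrime q p) (x : E) (hx : x ∈ D.R)
    (hxe : x * aeval (fun j => (X j : E)) q = aeval (fun j => (X j : E)) p)
    (a b : Fin m →₀ ℕ) (ha : a ∈ q.support) (hb : b ∈ q.support) :
    D.Neg (fun ω => |ell D X (fun j => a j) ω - ell D X (fun j => b j) ω|) := by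
  classical
  rcases Nat.eq_zero_or_pos m with hm0 | hm
  · subst hm0
    refine D.neg_mono _ _ (Filter.Eventually.of_forall fun ω => ?_) (D.neg_const 0)
    simp [ell]
  apply D.arch
  intro ε hε
  choose C hC using fun j => D.bdd (X j : E) (X j).ne_zero
  obtain ⟨C0, hC0⟩ : ∃ C0 : ℝ, C0 = ∑ j, |C j| := ⟨_, rfl⟩
  have hC00 : 0 ≤ C0 := by rw [hC0]; exact Finset.sum_nonneg fun _ _ => abs_nonneg _
  have hbd : D.Neg (fun ω => ∑ j, |D.lg (X j) ω| - C0 * D.one ω) := by
    refine D.neg_mono _ _ ?_ (D.neg_sum Finset.univ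
      (fun j ω => |Real.log (D.A (X j : E) ω)| - C j * D.one ω) fun j _ => hC j)
    filter_upwards [D.one_nonneg] with ω h1
    rw [hC0, Finset.sum_mul, ← Finset.sum_sub_distrib]
    refine Finset.sum_le_sum fun j _ => ?_
    have := mul_le_mul_of_nonneg_right (le_abs_self (C j)) h1
    unfold Dict.lg
    linarith
  obtain ⟨d, hd⟩ : ∃ d, d = p.totalDegree := ⟨_, rfl⟩
  obtain ⟨e, he⟩ : ∃ e, e = q.totalDegree := ⟨_, rfl⟩
  obtain ⟨R, hR⟩ : ∃ R : ℕ, R = d * e * m ^ m := ⟨_, rfl⟩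
  obtain ⟨M1, hM1⟩ := exists_nat_ge (4 * R * C0 / ε)
  obtain ⟨M, hM⟩ : ∃ M : ℕ, M = M1 + 2 * R + (d + e) := ⟨_, rfl⟩
  have hcod := cod_bound D X hX hm hind p q hq hpq x hx hxe M (by omega)
  let c : D.Ω → q.support := fun ω =>
    if ell D X (fun j => b j) ω ≤ ell D X (fun j => a j) ω then ⟨a, ha⟩ else ⟨b, hb⟩
  have hmain := gcd_M D X hX hind q hq M c
  obtain ⟨N, hN⟩ : ∃ N, N = finrank k (WW D X (aeval (fun j => (X j : E)) q) M) := ⟨_, rfl⟩
  rw [← hN, ← hd, ← he, ← hR] at hcod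
  rw [← hN] at hmain
  obtain ⟨s, hs⟩ : ∃ s, s = (Sx m M).card := ⟨_, rfl⟩
  rw [← hs] at hcod hmain
  have hs0 : 0 < s := by
    rw [hs]
    have h1 := Sx_lower m M hm
    have h2 : 0 < (M + 1) ^ m := by positivity
    by_contra h3
    push Not at h3
    rw [Nat.le_zero.1 h3, mul_zero] at h1
    omega
  have hNs : N ≤ s := by
    rw [hN, hs]
    refine (Submodule.finrank_le _).trans ?_
    rw [Module.finrank_fintype_fun_eq_card, Fintype.card_coe]
  -- real inequalities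
  have hsr : (0 : ℝ) < s := by exact_mod_cast hs0
  have hMr : (1 : ℝ) ≤ (M : ℝ) + 1 := by
    have : (0 : ℝ) ≤ M := Nat.cast_nonneg _
    linarith
  have hcodr : ((M : ℝ) + 1) ^ 2 * (s - N) ≤ R * s := by
    have : (((M + 1) ^ 2 * s : ℕ) : ℝ) ≤ (((M + 1) ^ 2 * N + R * s : ℕ) : ℝ) := by
      exact_mod_cast hcod
    push_cast at this
    nlinarith
  have hM2 : 2 * (R : ℝ) ≤ (M : ℝ) + 1 := by
    have : 2 * R ≤ M + 1 := by omega
    exact_mod_cast this
  have hM3 : 4 * R * C0 ≤ ε * ((M : ℝ) + 1) := by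
    have h1 : (M1 : ℝ) ≤ (M : ℝ) + 1 := by
      have : M1 ≤ M + 1 := by omega
      exact_mod_cast this
    have h2 := hM1.trans h1
    rw [div_le_iff₀ hε] at h2
    linarith
  have hR0 : (0 : ℝ) ≤ R := Nat.cast_nonneg _
  have hNr : (s : ℝ) / 2 ≤ N := by
    have h1 : ((M : ℝ) + 1) ^ 2 * (s - N) ≤ ((M : ℝ) + 1) ^ 2 * (s / 2) := by
      refine hcodr.trans ?_
      have h2 : 2 * (R : ℝ) ≤ ((M : ℝ) + 1) ^ 2 := by nlinarith
      nlinarith
    have h2 := le_of_mul_le_mul_left h1 (by positivity)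
    linarith
  have hN0 : (0 : ℝ) < N := by linarith
  have hsub : (((s - N : ℕ)) : ℝ) = s - N := by
    rw [Nat.cast_sub hNs]
  obtain ⟨κ, hκ⟩ : ∃ κ : ℝ, κ = 2 * ((s : ℝ) - N) * M / N := ⟨_, rfl⟩
  have hsN : (0 : ℝ) ≤ s - N := by
    have : (N : ℝ) ≤ s := by exact_mod_cast hNs
    linarith
  have hκ0 : 0 ≤ κ := by rw [hκ]; positivity
  have hκε : κ * C0 ≤ ε := by
    rw [hκ, div_mul_eq_mul_div, div_le_iff₀ hN0]
    have h1 : ((M : ℝ) + 1) ^ 2 * (2 * (s - N) * M * C0) ≤ ((M : ℝ) + 1) ^ 2 * (ε * N) := by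
      have h2 : 2 * M * C0 * (((M : ℝ) + 1) ^ 2 * (s - N)) ≤ 2 * M * C0 * (R * s) :=
        mul_le_mul_of_nonneg_left hcodr (by positivity)
      have h3 : 2 * M * C0 * (R * s) ≤ 2 * ((M : ℝ) + 1) * C0 * (R * s) := by
        have : 0 ≤ C0 * (R * s) := by positivity
        nlinarith
      have h4 : 2 * ((M : ℝ) + 1) * C0 * (R * s) ≤ ((M : ℝ) + 1) ^ 2 * (ε * (s / 2)) := by
        have h5 : 4 * R * C0 * (((M : ℝ) + 1) * s / 2) ≤
            ε * ((M : ℝ) + 1) * (((M : ℝ) + 1) * s / 2) :=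
          mul_le_mul_of_nonneg_right hM3 (by positivity)
        nlinarith
      have h5 : ((M : ℝ) + 1) ^ 2 * (ε * (s / 2)) ≤ ((M : ℝ) + 1) ^ 2 * (ε * N) := by
        refine mul_le_mul_of_nonneg_left ?_ (by positivity)
        exact mul_le_mul_of_nonneg_left hNr hε.le
      nlinarith
    exact le_of_mul_le_mul_left h1 (by positivity)
  -- the combination
  have hcomb := D.neg_add _ _ (D.neg_add _ _ (D.neg_smul _ (2 / N : ℝ) (by positivity) hmain)
    (D.neg_smul _ κ hκ0 hbd)) (D.neg_add _ _ (ell_neg' D X hX (fun j => a j))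
      (ell_neg' D X hX (fun j => b j)))
  refine D.neg_mono _ _ ?_ hcomb
  filter_upwards [D.one_nonneg] with ω h1
  have h2 : 2 * ell D X (fun j => (c ω).1 j) ω - ell D X (fun j => a j) ω -
      ell D X (fun j => b j) ω = |ell D X (fun j => a j) ω - ell D X (fun j => b j) ω| := by
    simp only [c]
    split_ifs with h
    · rw [abs_of_nonneg (by linarith)]
      ring
    · rw [abs_of_neg (by linarith)]
      ring
  rw [← h2, hsub]
  have h3 : 2 / (N : ℝ) * (N * ell D X (fun j => (c ω).1 j) ω -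
      (s - N) * (M * ∑ j, |D.lg (X j) ω|)) =
      2 * ell D X (fun j => (c ω).1 j) ω - κ * ∑ j, |D.lg (X j) ω| := by
    rw [hκ]
    field_simp
  rw [h3]
  have h4 : κ * C0 * D.one ω ≤ ε * D.one ω := mul_le_mul_of_nonneg_right hκε h1
  have h5 : κ * (∑ j, |D.lg (X j) ω| - C0 * D.one ω) =
      κ * ∑ j, |D.lg (X j) ω| - κ * C0 * D.one ω := by ring
  rw [h5]
  linarith

end Pool.Agent.Y742.DI
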