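import Mathlib
import Pool.Agent.Y742.DI.Gcd3

/-!
Multiplicative bases modulo constants, algebraic independence of independent units.
-/

set_option autoImplicit false

open Finset Module MvPolynomial Filter

namespace Pool.Agent.Y742.DI

section grp

variable {G : Type} [CommGroup G] {N : ℕ}

/-- relations modulo `C` -/
def Rl (u : Fin N → G) (C : Subgroup G) : Submodule ℤ (Fin N → ℤ) where
  carrier := {lam | ∏ i, u i ^ lam i ∈ C}
  add_mem' := by
    intro a b ha hb
    show ∏ i, u i ^ (a + b) i ∈ C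
    have : ∏ i, u i ^ (a + b) i = (∏ i, u i ^ a i) * ∏ i, u i ^ b i := by
      rw [← Finset.prod_mul_distrib]
      exact Finset.prod_congr rfl fun i _ => zpow_add _ _ _
    rw [this]
    exact C.mul_mem ha hb
  zero_mem' := by
    show ∏ i, u i ^ (0 : Fin N → ℤ) i ∈ C
    simp
  smul_mem' := by
    intro c a ha
    show ∏ i, u i ^ (c • a) i ∈ C
    have : ∏ i, u i ^ (c • a) i = (∏ i, u i ^ a i) ^ c := by
      rw [← Finset.prod_zpow]
      refine Finset.prod_congr rfl fun i _ => ?_
      rw [Pi.smul_apply, smul_eq_mul, mul_comm, zpow_mul]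
    rw [this]
    exact C.zpow_mem ha c

theorem mem_Rl (u : Fin N → G) (C : Subgroup G) (lam : Fin N → ℤ) :
    lam ∈ Rl u C ↔ ∏ i, u i ^ lam i ∈ C := Iff.rfl

theorem zpow_sum' {ι : Type} (x : G) (s : Finset ι) (f : ι → ℤ) :
    x ^ (∑ i ∈ s, f i) = ∏ i ∈ s, x ^ f i := by
  classical
  induction s using Finset.induction_on with
  | empty => simp
  | insert i s hi ih => rw [Finset.sum_insert hi, Finset.prod_insert hi, zpow_add, ih]

theorem prod_sum_zpow {m : ℕ} (u : Fin N → G) (Q : Fin m → Fin N → ℤ) (ν : Fin m → ℤ) :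
    ∏ j, (∏ l, u l ^ Q j l) ^ ν j = ∏ l, u l ^ (∑ j, ν j • Q j) l := by
  classical
  have h1 : ∀ l, u l ^ (∑ j, ν j • Q j) l = ∏ j, u l ^ (Q j l * ν j) := by
    intro l
    rw [Finset.sum_apply, zpow_sum']
    refine Finset.prod_congr rfl fun j _ => ?_
    rw [Pi.smul_apply, smul_eq_mul, mul_comm]
  rw [Finset.prod_congr rfl fun l _ => h1 l, Finset.prod_comm]
  refine Finset.prod_congr rfl fun j _ => ?_
  rw [← Finset.prod_zpow]
  exact Finset.prod_congr rfl fun l _ => (zpow_mul _ _ _).symm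

theorem exists_basis (u : Fin N → G) (C : Subgroup G)
    (hC : ∀ (x : G) (n : ℕ), 0 < n → x ^ n ∈ C → x ∈ C) :
    ∃ (m : ℕ) (Q : Fin m → Fin N → ℤ) (M : Fin N → Fin m → ℤ),
      (∀ i, u i / ∏ j, (∏ l, u l ^ Q j l) ^ M i j ∈ C) ∧
      (∀ ν : Fin m → ℤ, ∏ j, (∏ l, u l ^ Q j l) ^ ν j ∈ C → ν = 0) ∧
      (∀ ν : Fin m → ℤ, (∀ i, ∑ j, M i j * ν j = 0) → ν = 0) := by
  classical
  have htf : IsTorsionFree ℤ ((Fin N → ℤ) ⧸ Rl u C) := by
    rw [Module.isTorsionFree_int_iff_isAddTorsionFree]
    constructor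
    intro n hn a b hab
    obtain ⟨a, rfl⟩ := Submodule.Quotient.mk_surjective _ a
    obtain ⟨b, rfl⟩ := Submodule.Quotient.mk_surjective _ b
    rw [Submodule.Quotient.eq, mem_Rl]
    have h1 : (Submodule.Quotient.mk (n • (a - b)) : (Fin N → ℤ) ⧸ Rl u C) = 0 := by
      have h2 : n • (Submodule.Quotient.mk a : (Fin N → ℤ) ⧸ Rl u C) =
        n • (Submodule.Quotient.mk b : (Fin N → ℤ) ⧸ Rl u C) := hab
      rw [Submodule.Quotient.mk_smul, Submodule.Quotient.mk_sub, smul_sub, h2, sub_self]
    rw [Submodule.Quotient.mk_eq_zero, mem_Rl] at h1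
    refine hC _ n (Nat.pos_of_ne_zero hn) ?_
    rw [← Finset.prod_pow]
    refine Eq.subst (motive := fun x => x ∈ C) ?_ h1
    refine Finset.prod_congr rfl fun i _ => ?_
    rw [Pi.smul_apply, ← zpow_natCast (u i ^ (a - b) i) n, ← zpow_mul, nsmul_eq_mul, mul_comm]
  let bb := Module.finBasis ℤ ((Fin N → ℤ) ⧸ Rl u C)
  choose Q hQ using fun j => Submodule.Quotient.mk_surjective (Rl u C) (bb j)
  refine ⟨finrank ℤ ((Fin N → ℤ) ⧸ Rl u C), Q,
    fun i j => bb.repr (Submodule.Quotient.mk (Pi.single i 1)) j, ?_, ?_, ?_⟩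
  · intro i
    rw [prod_sum_zpow]
    have h1 : (Pi.single i 1 - ∑ j, (bb.repr (Submodule.Quotient.mk (Pi.single i 1)) j) • Q j) ∈
        Rl u C := by
      rw [← Submodule.Quotient.eq]
      have h2 : (Submodule.Quotient.mk (∑ j, (bb.repr (Submodule.Quotient.mk
          (Pi.single i 1)) j) • Q j) : (Fin N → ℤ) ⧸ Rl u C) =
          ∑ j, (bb.repr (Submodule.Quotient.mk (Pi.single i 1)) j) • bb j := by
        have h3 := map_sum (Rl u C).mkQ (fun j => (bb.repr (Submodule.Quotient.mk
          (Pi.single i 1)) j) • Q j) Finset.univ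
        rw [Submodule.mkQ_apply] at h3
        rw [h3]
        refine Finset.sum_congr rfl fun j _ => ?_
        rw [map_smul, Submodule.mkQ_apply, hQ]
      rw [h2]
      exact (bb.sum_repr _).symm
    rw [mem_Rl] at h1
    refine Eq.subst (motive := fun x => x ∈ C) ?_ h1
    rw [Finset.prod_congr rfl fun l _ => by rw [Pi.sub_apply, zpow_sub, ← div_eq_mul_inv],
      Finset.prod_div_distrib]
    congr 1
    rw [Finset.prod_eq_single i]
    · rw [Pi.single_eq_same, zpow_one]
    · intro l _ hl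
      rw [Pi.single_eq_of_ne hl, zpow_zero]
    · intro h
      exact absurd (Finset.mem_univ _) h
  · intro ν hν
    rw [prod_sum_zpow, ← mem_Rl, ← Submodule.Quotient.mk_eq_zero] at hν
    have h2 : (Submodule.Quotient.mk (∑ j, ν j • Q j) : (Fin N → ℤ) ⧸ Rl u C) =
        ∑ j, ν j • bb j := by
      have h3 := map_sum (Rl u C).mkQ (fun j => ν j • Q j) Finset.univ
      rw [Submodule.mkQ_apply] at h3
      rw [h3]
      refine Finset.sum_congr rfl fun j _ => ?_
      rw [map_smul, Submodule.mkQ_apply, hQ]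
    rw [h2] at hν
    funext j
    exact Fintype.linearIndependent_iff.1 bb.linearIndependent ν hν j
  · intro ν hν
    -- the functional
    let f : ((Fin N → ℤ) ⧸ Rl u C) →ₗ[ℤ] ℤ := ∑ j, ν j • bb.coord j
    have hf : f ∘ₗ (Rl u C).mkQ = 0 := by
      refine LinearMap.pi_ext' fun i => ?_
      refine LinearMap.ext_ring ?_
      rw [LinearMap.comp_apply, LinearMap.comp_apply, LinearMap.single_apply, Submodule.mkQ_apply]
      simp only [f, LinearMap.sum_apply, LinearMap.smul_apply, Module.Basis.coord_apply,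
        smul_eq_mul, LinearMap.zero_comp, LinearMap.zero_apply]
      rw [← hν i]
      exact Finset.sum_congr rfl fun j _ => mul_comm _ _
    have hf0 : f = 0 := by
      refine LinearMap.ext fun x => ?_
      obtain ⟨a, rfl⟩ := (Rl u C).mkQ_surjective x
      exact DFunLike.congr_fun hf a
    funext j
    have h1 : f (bb j) = ν j := by
      simp only [f, LinearMap.sum_apply, LinearMap.smul_apply, Module.Basis.coord_apply,
        smul_eq_mul, Module.Basis.repr_self]
      rw [Finset.sum_eq_single j]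
      · simp
      · intro i _ hi
        rw [Finsupp.single_eq_of_ne hi, mul_zero]
      · intro h
        exact absurd (Finset.mem_univ _) h
    rw [← h1, hf0]
    rfl

end grp

variable {k E : Type} [Field k] [Field E] [Algebra k E] (D : Dict k E) {m : ℕ}

/-- the constants -/
def Kx (k E : Type) [Field k] [Field E] [Algebra k E] : Subgroup Eˣ :=
  (Units.map ((algebraMap k E : k →+* E) : k →* E)).range

theorem mem_Kx (x : Eˣ) : x ∈ Kx k E ↔ (x : E) ∈ (algebraMap k E).range := by
  unfold Kx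
  constructor
  · rintro ⟨c, rfl⟩
    exact ⟨c, rfl⟩
  · rintro ⟨c, hc⟩
    have hc0 : c ≠ 0 := by
      rintro rfl
      rw [map_zero] at hc
      exact x.ne_zero hc.symm
    exact ⟨Units.mk0 c hc0, Units.ext hc⟩

theorem mon_div (X : Fin m → Eˣ) (a b : Fin m → ℕ) :
    ((∏ j, X j ^ a j) / (∏ j, X j ^ b j) : Eˣ) = ∏ j, X j ^ ((a j : ℤ) - b j) := by
  rw [← Finset.prod_div_distrib]
  refine Finset.prod_congr rfl fun j _ => ?_
  rw [zpow_sub, zpow_natCast, zpow_natCast, div_eq_mul_inv]

/-- multiplicatively independent units are algebraically independent -/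
theorem algIndep (X : Fin m → Eˣ) (hX : ∀ j, X j ∈ D.U)
    (h : ∀ ν : Fin m → ℤ, ∏ j, X j ^ ν j ∈ Kx k E → ν = 0) :
    AlgebraicIndependent k (fun j => (X j : E)) := by
  classical
  rw [algebraicIndependent_iff]
  intro φ hφ
  by_contra hne
  let e : Fin φ.support.card ≃ φ.support := φ.support.equivFin.symm
  have h1 := D.unit_eq φ.support.card (fun i => ∏ j, X j ^ ((e i).1 j))
    (fun i => D.U.prod_mem fun j _ => D.U.pow_mem (hX j) _)
    (by
      intro i i' hi hmem
      apply hi
      rw [← mem_Kx, mon_div X (fun j => (e i).1 j) (fun j => (e i').1 j)] at hmem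
      have h2 := h _ hmem
      apply e.injective
      apply Subtype.ext
      ext j
      have h3 := congrFun h2 j
      simp only [Pi.zero_apply] at h3
      omega)
  rw [Fintype.linearIndependent_iff] at h1
  rw [aeval_eq_sum] at hφ
  have h2 := h1 (fun i => coeff (e i).1 φ) (by
    rw [← hφ, ← Equiv.sum_comp e]
    refine Finset.sum_congr rfl fun i _ => ?_
    rw [Algebra.smul_def, mon_eq])
  obtain ⟨s, hs⟩ := support_nonempty.2 hne
  have h3 := h2 (e.symm ⟨s, hs⟩)
  rw [Equiv.apply_symm_apply] at h3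
  exact mem_support_iff.1 hs h3

end Pool.Agent.Y742.DI
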