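import Mathlib
import Pool.Agent.Y742.DI.MBas
import Pool.Agent.Y742.DI.Lin

/-!
Laurent curves through generic points of closed subschemes of tori times affine spaces which are
linear in the coordinates of the affine space.
-/

set_option autoImplicit false

open Finset Module MvPolynomial Filter

namespace Pool.Agent.Y742.DI

open Pool.Agent.H159R3.Exp

/-- annihilators of subgroups -/
theorem ann {m : ℕ} (Λ : AddSubgroup (Fin m → ℤ)) :
    (∃ ν : Fin m → ℤ, ν ≠ 0 ∧ ∀ lam ∈ Λ, ∑ j, ν j * lam j = 0) ∨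
      ∀ j, ∃ n : ℕ, 0 < n ∧ Pi.single j (n : ℤ) ∈ Λ := by
  classical
  let cst : (Fin m → ℤ) → (Fin m → ℚ) := fun lam j => (lam j : ℚ)
  let S : Submodule ℚ (Fin m → ℚ) := Submodule.span ℚ (cst '' (Λ : Set (Fin m → ℤ)))
  by_cases hS : S = ⊤
  · right
    have h1 : ∀ v ∈ S, ∃ (n : ℕ), 0 < n ∧ ∃ lam ∈ Λ, (n : ℚ) • v = cst lam := by
      intro v hv
      induction hv using Submodule.span_induction with
      | mem x hx =>
        obtain ⟨lam, hl, rfl⟩ := hx
        exact ⟨1, one_pos, lam, hl, by simp⟩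
      | zero => exact ⟨1, one_pos, 0, Λ.zero_mem, by funext j; simp [cst]⟩
      | add x y _ _ hx hy =>
        obtain ⟨n, hn, lam, hl, h⟩ := hx
        obtain ⟨n', hn', lam', hl', h'⟩ := hy
        refine ⟨n * n', Nat.mul_pos hn hn', (n' : ℤ) • lam + (n : ℤ) • lam',
          Λ.add_mem (Λ.zsmul_mem hl _) (Λ.zsmul_mem hl' _), ?_⟩
        funext j
        have e1 := congrFun h j
        have e2 := congrFun h' j
        simp only [cst, Pi.smul_apply, smul_eq_mul, Pi.add_apply] at e1 e2 ⊢
        push_cast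
        linear_combination (n' : ℚ) * e1 + (n : ℚ) * e2
      | smul c x _ hx =>
        obtain ⟨n, hn, lam, hl, h⟩ := hx
        refine ⟨n * c.den, Nat.mul_pos hn c.den_pos, c.num • lam, Λ.zsmul_mem hl _, ?_⟩
        funext j
        have e1 := congrFun h j
        simp only [cst, Pi.smul_apply, smul_eq_mul] at e1 ⊢
        push_cast
        rw [← e1]
        have h2 : (c.den : ℚ) * c = c.num := by rw [mul_comm]; exact Rat.mul_den_eq_num c
        linear_combination (n : ℚ) * x j * h2
    intro j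
    obtain ⟨n, hn, lam, hl, h⟩ := h1 (Pi.single j 1) (by rw [hS]; trivial)
    refine ⟨n, hn, ?_⟩
    have h2 : Pi.single j (n : ℤ) = lam := by
      funext i
      have e1 := congrFun h i
      simp only [cst, Pi.smul_apply, smul_eq_mul] at e1
      by_cases hi : i = j
      · subst hi
        rw [Pi.single_eq_same, mul_one] at e1
        rw [Pi.single_eq_same]
        exact_mod_cast e1
      · rw [Pi.single_eq_of_ne hi, mul_zero] at e1
        rw [Pi.single_eq_of_ne hi]
        exact_mod_cast e1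
    rw [h2]
    exact hl
  · left
    obtain ⟨f, hf, hfS⟩ := Submodule.exists_le_ker_of_lt_top S (lt_top_iff_ne_top.2 hS)
    obtain ⟨D0, hD0⟩ : ∃ D0 : ℕ, D0 = ∏ j, (f (Pi.single j 1)).den := ⟨_, rfl⟩
    have hD0pos : 0 < D0 := by
      rw [hD0]
      exact Finset.prod_pos fun j _ => Rat.den_pos _
    have h1 : ∀ j, ∃ n : ℤ, (n : ℚ) = D0 * f (Pi.single j 1) := by
      intro j
      refine ⟨(f (Pi.single j 1)).num * ∏ i ∈ Finset.univ.erase j, ((f (Pi.single i 1)).den : ℤ), ?_⟩
      rw [hD0, ← Finset.mul_prod_erase _ _ (Finset.mem_univ j)]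
      push_cast
      have h2 := Rat.mul_den_eq_num (f (Pi.single j 1))
      rw [← h2]
      ring
    choose ν hν using h1
    have hfv : ∀ v : Fin m → ℚ, f v = ∑ j, v j * f (Pi.single j 1) := by
      intro v
      conv_lhs => rw [LinearMap.pi_apply_eq_sum_univ f v]
      refine Finset.sum_congr rfl fun j _ => ?_
      rw [smul_eq_mul]
      congr 2
      funext i
      rw [Pi.single_apply]
      simp [eq_comm]
    refine ⟨ν, ?_, ?_⟩
    · intro h
      apply hf
      refine LinearMap.ext fun v => ?_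
      rw [hfv, LinearMap.zero_apply]
      refine Finset.sum_eq_zero fun j _ => ?_
      have h2 := hν j
      rw [h] at h2
      simp only [Pi.zero_apply, Int.cast_zero] at h2
      have h3 : (D0 : ℚ) ≠ 0 := by exact_mod_cast hD0pos.ne'
      rw [(mul_eq_zero.1 h2.symm).resolve_left h3, mul_zero]
    · intro lam hl
      have h2 : f (cst lam) = 0 := hfS (Submodule.subset_span ⟨lam, hl, rfl⟩)
      rw [hfv] at h2
      have h3 : ((∑ j, ν j * lam j : ℤ) : ℚ) = 0 := by
        push_cast
        have h4 : ∑ j, (ν j : ℚ) * (lam j : ℚ) = D0 * ∑ j, cst lam j * f (Pi.single j 1) := by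
          rw [Finset.mul_sum]
          refine Finset.sum_congr rfl fun j _ => ?_
          rw [hν j]
          simp only [cst]
          ring
        rw [h4, h2, mul_zero]
      exact_mod_cast h3

variable {k E : Type} [Field k] [Field E] [Algebra k E] (D : Dict k E)

/-- the exponents of negligible monomials -/
def Lam {m : ℕ} (X : Fin m → Eˣ) : AddSubgroup (Fin m → ℤ) where
  carrier := {lam | D.Neg (fun ω => |∑ j, (lam j : ℝ) * D.lg (X j) ω|)}
  add_mem' := by
    intro a b ha hb
    refine D.neg_mono _ _ (Filter.Eventually.of_forall fun ω => ?_) (D.neg_add _ _ ha hb)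
    have : ∑ j, (((a + b) j : ℤ) : ℝ) * D.lg (X j) ω =
        ∑ j, (a j : ℝ) * D.lg (X j) ω + ∑ j, (b j : ℝ) * D.lg (X j) ω := by
      rw [← Finset.sum_add_distrib]
      refine Finset.sum_congr rfl fun j _ => ?_
      rw [Pi.add_apply]
      push_cast
      ring
    rw [this]
    exact abs_add_le _ _
  zero_mem' := by
    refine D.neg_mono _ _ (Filter.Eventually.of_forall fun ω => ?_) (D.neg_const 0)
    simp
  neg_mem' := by
    intro a ha
    refine D.neg_mono _ _ (Filter.Eventually.of_forall fun ω => ?_) ha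
    have : ∑ j, (((-a) j : ℤ) : ℝ) * D.lg (X j) ω = -∑ j, (a j : ℝ) * D.lg (X j) ω := by
      rw [← Finset.sum_neg_distrib]
      refine Finset.sum_congr rfl fun j _ => ?_
      rw [Pi.neg_apply]
      push_cast
      ring
    rw [this, abs_neg]

theorem mem_Lam {m : ℕ} (X : Fin m → Eˣ) (lam : Fin m → ℤ) :
    lam ∈ Lam D X ↔ D.Neg (fun ω => |∑ j, (lam j : ℝ) * D.lg (X j) ω|) := Iff.rfl

/-- if every unit of the basis is negligible, so are the given units -/
theorem neg_of_basis {m : ℕ} (X : Fin m → Eˣ) (u : Eˣ) (M : Fin m → ℤ)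
    (hu : u / ∏ j, X j ^ M j ∈ Kx k E) (h : ∀ j, D.Neg (fun ω => |D.lg (X j) ω|)) :
    D.Neg (fun ω => |D.lg u ω|) := by
  classical
  rw [mem_Kx] at hu
  obtain ⟨c, hc⟩ := hu
  have hc0 : c ≠ 0 := by
    rintro rfl
    rw [map_zero] at hc
    exact (u / ∏ j, X j ^ M j).ne_zero hc.symm
  obtain ⟨C, hC⟩ := D.const_bdd c hc0
  have h1 : (u : E) = algebraMap k E c * ∏ j, (X j : E) ^ M j := by
    rw [hc]
    have : ((∏ j, X j ^ M j : Eˣ) : E) = ∏ j, (X j : E) ^ M j := by
      rw [Units.coe_prod]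
      exact Finset.prod_congr rfl fun j _ => Units.val_zpow_eq_zpow_val _ _
    rw [← this, Units.val_div_eq_div_val, div_mul_cancel₀ _ (Units.ne_zero _)]
  have h2 : ∀ᶠ ω in D.ev, ∀ j ∈ (Finset.univ : Finset (Fin m)),
      D.lg ((X j : E) ^ M j) ω = M j * D.lg (X j) ω :=
    (Filter.eventually_all_finset _).2 fun j _ => D.lg_zpow _ (X j).ne_zero _
  refine D.neg_mono _ _ ?_ (D.neg_add _ _ (D.neg_const C) (D.neg_sum Finset.univ
    (fun j ω => |(M j : ℝ)| * |D.lg (X j) ω|) fun j _ => D.neg_smul _ _ (abs_nonneg _) (h j)))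
  filter_upwards [hC, h2, D.lg_mul (algebraMap k E c) (∏ j, (X j : E) ^ M j)
    ((map_ne_zero _).2 hc0) (Finset.prod_ne_zero_iff.2 fun j _ => zpow_ne_zero _ (X j).ne_zero),
    D.lg_prod Finset.univ (fun j => (X j : E) ^ M j)
      (fun j _ => zpow_ne_zero _ (X j).ne_zero)] with ω e1 e2 e3 e4
  rw [h1, e3, e4]
  refine (abs_add_le _ _).trans (add_le_add e1 ?_)
  refine (Finset.abs_sum_le_sum_abs _ _).trans (Finset.sum_le_sum fun j hj => ?_)
  rw [e2 j hj, abs_mul]

end Pool.Agent.Y742.DI
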