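import Mathlib
import Pool.Agent.Y742.DI.Struct

/-!
Laurent curves through generic points: the main theorem.
-/

set_option autoImplicit false

open Finset Module MvPolynomial Filter

namespace Pool.Agent.Y742.DI

open Pool.Agent.H159R3.Exp

variable {k E : Type} [Field k] [Field E] [Algebra k E] (D : Dict k E)

/-- the homomorphism of the field of rational functions -/
noncomputable def psi {m : ℕ} (Y : Fin m → Eˣ)
    (hY : AlgebraicIndependent k (fun j => (Y j : E))) :
    FractionRing (MvPolynomial (Fin m) k) →ₐ[k] E :=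
  IsFractionRing.liftAlgHom (g := aeval fun j => (Y j : E))
    (algebraicIndependent_iff_injective_aeval.1 hY)

theorem psi_algebraMap {m : ℕ} (Y : Fin m → Eˣ)
    (hY : AlgebraicIndependent k (fun j => (Y j : E))) (p : MvPolynomial (Fin m) k) :
    psi Y hY (algebraMap _ _ p) = aeval (fun j => (Y j : E)) p := by
  exact IsFractionRing.lift_algebraMap (algebraicIndependent_iff_injective_aeval.1 hY) p

theorem psi_frac {m : ℕ} (Y : Fin m → Eˣ)
    (hY : AlgebraicIndependent k (fun j => (Y j : E))) (p q : MvPolynomial (Fin m) k) :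
    psi Y hY (algebraMap _ _ p / algebraMap _ _ q) =
      aeval (fun j => (Y j : E)) p / aeval (fun j => (Y j : E)) q := by
  rw [map_div₀, psi_algebraMap, psi_algebraMap]

theorem aeval_scale {m : ℕ} (X : Fin m → Eˣ) (τ : Eˣ) (ν : Fin m → ℤ)
    (q : MvPolynomial (Fin m) k) (s : ℤ) (hs : ∀ b ∈ q.support, ∑ j, ν j * (b j : ℤ) = s) :
    aeval (fun j => ((X j * τ ^ ν j : Eˣ) : E)) q =
      (τ : E) ^ s * aeval (fun j => (X j : E)) q := by
  rw [aeval_eq_sum (fun j => X j * τ ^ ν j) q, aeval_eq_sum X q, Finset.mul_sum]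
  refine Finset.sum_congr rfl fun b _ => ?_
  have h1 : mon (fun j => X j * τ ^ ν j) (fun j => b.1 j) =
      (τ : E) ^ s * mon X (fun j => b.1 j) := by
    rw [mon_eq, mon_eq, ← hs b.1 b.2, ← Units.val_zpow_eq_zpow_val, ← Units.val_mul]
    congr 1
    rw [zpow_sum', ← Finset.prod_mul_distrib]
    refine Finset.prod_congr rfl fun j _ => ?_
    rw [mul_pow, zpow_mul, zpow_natCast, mul_comm]
  rw [h1]
  ring

theorem laurent_curve [CharZero k] {N : ℕ} {ι : Type} (F : ι → MvPolynomial (Fin N) k)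
    (I : Finset (Fin N)) (hF : ∀ i, LinOut I (F i)) (z : Fin N → E) (u0 : Fin N → Eˣ)
    (hu0 : ∀ a, u0 a ∈ D.U) (hzu0 : ∀ a ∈ I, z a = u0 a) (hz : ∀ a, z a ∈ D.R)
    (hFz : ∀ i, aeval z (F i) = 0)
    (hne : ¬ ∀ a ∈ I, D.Neg (fun ω => |D.lg (u0 a) ω|)) : LCurve F z := by
  classical
  have hE0 : CharZero E := charZero_of_injective_algebraMap (algebraMap k E).injective
  obtain ⟨u, hu_def⟩ : ∃ u : Fin N → Eˣ, u = fun a => if a ∈ I then u0 a else 1 := ⟨_, rfl⟩
  have huI : ∀ a ∈ I, u a = u0 a := fun a ha => by rw [hu_def]; exact if_pos ha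
  have huI' : ∀ a, a ∉ I → u a = 1 := fun a ha => by rw [hu_def]; exact if_neg ha
  have hu : ∀ a, u a ∈ D.U := by
    intro a
    by_cases ha : a ∈ I
    · rw [huI a ha]
      exact hu0 a
    · rw [huI' a ha]
      exact D.U.one_mem
  have hzu : ∀ a ∈ I, z a = u a := fun a ha => by rw [huI a ha]; exact hzu0 a ha
  obtain ⟨m, Q, M, hQM, hind, hinj⟩ := exists_basis u (Kx k E) (by
    intro x n hn hx
    rw [mem_Kx] at hx ⊢
    rw [Units.val_pow_eq_pow_val] at hx
    exact D.tf _ n hn hx)
  obtain ⟨X, hXdef⟩ : ∃ X : Fin m → Eˣ, X = fun j => ∏ l, u l ^ Q j l := ⟨_, rfl⟩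
  have hQM' : ∀ i, u i / ∏ j, X j ^ M i j ∈ Kx k E := by
    intro i
    rw [hXdef]
    exact hQM i
  have hind' : ∀ ν : Fin m → ℤ, ∏ j, X j ^ ν j ∈ Kx k E → ν = 0 := by
    intro ν
    rw [hXdef]
    exact hind ν
  have hX : ∀ j, X j ∈ D.U := by
    intro j
    rw [hXdef]
    exact D.U.prod_mem fun l _ => D.U.zpow_mem (hu l) _
  have hXi := algIndep D X hX hind'
  rcases ann (Lam D X) with ⟨ν, hν0, hν⟩ | hall
  swap
  · exfalso
    apply hne
    intro a ha
    have h1 := neg_of_basis D X (u a) (M a) (hQM' a) (by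
      intro j
      obtain ⟨n, hn, hmem⟩ := hall j
      rw [mem_Lam] at hmem
      have hn' : (0 : ℝ) < n := by exact_mod_cast hn
      refine D.neg_mono _ _ (Filter.Eventually.of_forall fun ω => ?_)
        (D.neg_smul _ (1 / n : ℝ) (by positivity) hmem)
      have h2 : ∑ i, (((Pi.single j (n : ℤ) : Fin m → ℤ) i : ℤ) : ℝ) * D.lg (X i) ω =
          n * D.lg (X j) ω := by
        rw [Finset.sum_eq_single j]
        · rw [Pi.single_eq_same]
          push_cast
          ring
        · intro i _ hi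
          rw [Pi.single_eq_of_ne hi]
          simp
        · intro h
          exact absurd (Finset.mem_univ _) h
      rw [h2, abs_mul, abs_of_pos hn', ← mul_assoc, one_div, inv_mul_cancel₀ hn'.ne', one_mul])
    rw [huI a ha] at h1
    exact h1
  -- the field of rational functions
  let P := FractionRing (MvPolynomial (Fin m) k)
  let _ : Algebra P E := (psi X hXi).toRingHom.toAlgebra
  have halg : ∀ y : P, algebraMap P E y = psi X hXi y := fun y => rfl
  have : IsScalarTower k P E := IsScalarTower.of_algebraMap_eq fun c => by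
    rw [halg]
    exact ((psi X hXi).commutes c).symm
  choose c hc using fun a => (mem_Kx (k := k) _).1 (hQM' a)
  let ut : Fin N → P := fun a => algebraMap k P (c a) *
    ∏ j, (algebraMap (MvPolynomial (Fin m) k) P (MvPolynomial.X j)) ^ M a j
  have hut : ∀ (Y : Fin m → Eˣ) (hY : AlgebraicIndependent k (fun j => (Y j : E))) (a : Fin N),
      psi Y hY (ut a) = algebraMap k E (c a) * ∏ j, (Y j : E) ^ M a j := by
    intro Y hY a
    simp only [ut]
    rw [map_mul, map_prod]
    congr 1
    · exact (psi Y hY).commutes _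
    · refine Finset.prod_congr rfl fun j _ => ?_
      rw [map_zpow₀, psi_algebraMap, aeval_X]
  have hzp : ∀ (f : Fin m → ℤ) (Y : Fin m → Eˣ),
      ((∏ j, Y j ^ f j : Eˣ) : E) = ∏ j, (Y j : E) ^ f j := by
    intro f Y
    rw [Units.coe_prod]
    exact Finset.prod_congr rfl fun j _ => Units.val_zpow_eq_zpow_val _ _
  have huX : ∀ a, (u a : E) = algebraMap k E (c a) * ∏ j, (X j : E) ^ M a j := by
    intro a
    rw [hc a, ← hzp, Units.val_div_eq_div_val, div_mul_cancel₀ _ (Units.ne_zero _)]
  rcases line_or_field F I hF z (P := P) (by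
    intro a ha
    refine ⟨ut a, ?_⟩
    rw [halg, hut, hzu a ha, huX]) hFz with hcase | ⟨z', hz', hFz'⟩
  · exact hcase
  -- reduced fractions
  choose p q hrel hfrac using fun a =>
    IsFractionRing.exists_reduced_fraction (A := MvPolynomial (Fin m) k) (z' a)
  have hq0 : ∀ a, (q a : MvPolynomial (Fin m) k) ≠ 0 := fun a => nonZeroDivisors.ne_zero (q a).2
  have hfrac' : ∀ a, z' a = algebraMap _ P (p a) / algebraMap _ P (q a : MvPolynomial (Fin m) k) :=
    fun a => by rw [← hfrac a, IsFractionRing.mk'_eq_div]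
  have hqX0 : ∀ a, aeval (fun j => (X j : E)) (q a : MvPolynomial (Fin m) k) ≠ 0 := by
    intro a h
    apply hq0 a
    apply hXi
    rw [map_zero]
    exact h
  have hzX : ∀ a, z a * aeval (fun j => (X j : E)) (q a : MvPolynomial (Fin m) k) =
      aeval (fun j => (X j : E)) (p a) := by
    intro a
    rw [← hz' a, halg, hfrac' a, psi_frac, div_mul_cancel₀ _ (hqX0 a)]
  choose b0 hb0 using fun a => support_nonempty.2 (hq0 a)
  let s : Fin N → ℤ := fun a => ∑ j, ν j * (b0 a j : ℤ)
  have hs : ∀ a, ∀ b ∈ (q a : MvPolynomial (Fin m) k).support, ∑ j, ν j * (b j : ℤ) = s a := by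
    intro a b hb
    have h1 := gcd_neg D X hX hXi (p a) (q a) (hq0 a) (hrel a).symm (z a) (hz a) (hzX a)
      b (b0 a) hb (hb0 a)
    have h2 : (fun j => (b j : ℤ) - b0 a j) ∈ Lam D X := by
      rw [mem_Lam]
      refine D.neg_mono _ _ (Filter.Eventually.of_forall fun ω => le_of_eq ?_) h1
      congr 1
      unfold ell
      rw [← Finset.sum_sub_distrib]
      refine Finset.sum_congr rfl fun j _ => ?_
      push_cast
      ring
    have h3 := hν _ h2
    have h4 : ∑ j, ν j * ((b j : ℤ) - b0 a j) = ∑ j, ν j * (b j : ℤ) - s a := by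
      simp only [s]
      rw [← Finset.sum_sub_distrib]
      exact Finset.sum_congr rfl fun j _ => by ring
    rw [h4] at h3
    linarith
  -- the curve
  let v : E → Fin N → E := fun t a => t ^ (-s a) *
    aeval (fun j => (X j : E) * t ^ ν j) (p a) /
      aeval (fun j => (X j : E)) (q a : MvPolynomial (Fin m) k)
  have hvL : ∀ a, Laur fun t => v t a := by
    intro a
    have h1 : Laur fun t : E => aeval (fun j => (X j : E) * t ^ ν j) (p a) :=
      Laur.eval₂ (algebraMap k E) (fun t j => (X j : E) * t ^ ν j)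
        (fun j => (Laur.const _).mul (Laur.zpow _)) (p a)
    have h2 := ((Laur.zpow (k := E) (-s a)).mul h1).mul
      (Laur.const (aeval (fun j => (X j : E)) (q a : MvPolynomial (Fin m) k))⁻¹)
    simp only [v]
    simp only [div_eq_mul_inv]
    exact h2
  have hv1 : v 1 = z := by
    funext a
    simp only [v]
    rw [one_zpow, one_mul, div_eq_iff (hqX0 a), hzX a]
    simp
  have h2u : (2 : E) ≠ 0 := two_ne_zero
  -- the values at powers of two
  have hval : ∀ κ : ℕ, ∃ (Y : Fin m → Eˣ) (hY : AlgebraicIndependent k (fun j => (Y j : E))),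
      (∀ j, (Y j : E) = X j * ((2 : E) ^ κ) ^ ν j) ∧ ∀ a, v (2 ^ κ) a = psi Y hY (z' a) := by
    intro κ
    let τ : Eˣ := Units.mk0 ((2 : E) ^ κ) (pow_ne_zero _ h2u)
    have hτ : τ ∈ Kx k E := by
      rw [mem_Kx]
      refine ⟨2 ^ κ, ?_⟩
      show algebraMap k E (2 ^ κ) = 2 ^ κ
      rw [map_pow, map_ofNat]
    have hτU : ∀ n : ℤ, τ ^ n ∈ Kx k E := fun n => (Kx k E).zpow_mem hτ n
    have hYU : ∀ j, X j * τ ^ ν j ∈ D.U := fun j => D.U.mul_mem (hX j)
      (D.const_unit _ ((mem_Kx _).1 (hτU _)))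
    have hYi : AlgebraicIndependent k (fun j => ((X j * τ ^ ν j : Eˣ) : E)) := by
      refine algIndep D (fun j => X j * τ ^ ν j) hYU fun μ hμ => ?_
      apply hind'
      have h1 : ∏ j, X j ^ μ j = (∏ j, (X j * τ ^ ν j) ^ μ j) / ∏ j, τ ^ (ν j * μ j) := by
        rw [← Finset.prod_div_distrib]
        refine Finset.prod_congr rfl fun j _ => ?_
        rw [mul_zpow, ← zpow_mul, mul_div_assoc, div_self', mul_one]
      rw [h1]
      exact (Kx k E).div_mem hμ ((Kx k E).prod_mem fun j _ => hτU _)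
    refine ⟨fun j => X j * τ ^ ν j, hYi, fun j => ?_, fun a => ?_⟩
    · rw [Units.val_mul, Units.val_zpow_eq_zpow_val]
      rfl
    · rw [hfrac' a, psi_frac, aeval_scale X τ ν _ (s a) (hs a)]
      have h1 : (fun j => (X j : E) * ((2 : E) ^ κ) ^ ν j) =
          fun j => ((X j * τ ^ ν j : Eˣ) : E) := by
        funext j
        rw [Units.val_mul, Units.val_zpow_eq_zpow_val]
        rfl
      have h2 : (τ : E) = 2 ^ κ := rfl
      simp only [v]
      rw [h1, h2, zpow_neg]
      field_simp
  refine ⟨v, hvL, ?_, hv1, ?_⟩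
  · intro i
    have h1 : Laur fun t => aeval (v t) (F i) := Laur.eval₂ (algebraMap k E) v hvL (F i)
    apply h1.zero_of_zero
    intro κ
    obtain ⟨Y, hY, -, hval1⟩ := hval κ
    have h2 : v (2 ^ κ) = fun a => psi Y hY (z' a) := funext hval1
    show aeval (v (2 ^ κ)) (F i) = 0
    rw [h2]
    have h3 : aeval (fun a => psi Y hY (z' a)) (F i) = psi Y hY (aeval z' (F i)) := by
      rw [← MvPolynomial.comp_aeval_apply]
    rw [h3, hFz' i, map_zero]
  · -- nonconstant
    obtain ⟨a, ha⟩ : ∃ a, ∑ j, M a j * ν j ≠ 0 := by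
      by_contra hcon
      push Not at hcon
      exact hν0 (hinj ν hcon)
    have haI : a ∈ I := by
      by_contra haI
      apply ha
      have h1 := hQM' a
      rw [huI' a haI] at h1
      have h2 : ∏ j, X j ^ M a j ∈ Kx k E := by
        rw [← inv_mem_iff]
        rw [one_div] at h1
        exact h1
      have h3 := hind' _ h2
      refine Finset.sum_eq_zero fun j _ => ?_
      rw [h3]
      simp
    refine ⟨1, a, ?_⟩
    obtain ⟨Y, hY, hYval, hval1⟩ := hval 1
    rw [hval1 a, hv1, hzu a haI]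
    have hz'a : z' a = ut a := by
      apply (algebraMap P E).injective
      rw [hz' a, halg, hut, hzu a haI, huX]
    rw [hz'a, hut]
    have h1 : ∏ j, (Y j : E) ^ M a j = (∏ j, (X j : E) ^ M a j) * 2 ^ (∑ j, M a j * ν j) := by
      have h2 : (2 : E) ^ (∑ j, M a j * ν j) = ∏ j, (2 : E) ^ (M a j * ν j) := by
        have h3 := zpow_sum' (Units.mk0 (2 : E) h2u) Finset.univ (fun j => M a j * ν j)
        have h4 := congrArg Units.val h3
        rw [Units.val_zpow_eq_zpow_val, Units.coe_prod] at h4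
        rw [Units.val_mk0] at h4
        rw [h4]
        refine Finset.prod_congr rfl fun j _ => ?_
        rw [Units.val_zpow_eq_zpow_val, Units.val_mk0]
      rw [h2, ← Finset.prod_mul_distrib]
      refine Finset.prod_congr rfl fun j _ => ?_
      rw [hYval, mul_zpow, pow_one, ← zpow_mul, mul_comm (ν j)]
    rw [h1, ← mul_assoc, ← huX]
    intro h5
    have h6 : (2 : E) ^ (∑ j, M a j * ν j) = 1 := by
      have h7 : (u a : E) * ((2 : E) ^ (∑ j, M a j * ν j) - 1) = 0 := by
        rw [mul_sub, mul_one, h5, sub_self]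
      exact sub_eq_zero.1 ((mul_eq_zero.1 h7).resolve_left (u a).ne_zero)
    obtain ⟨n, hn | hn⟩ := (∑ j, M a j * ν j).eq_nat_or_neg
    · rw [hn, zpow_natCast] at h6
      have h7 : ((2 ^ n : ℕ) : E) = ((1 : ℕ) : E) := by
        push_cast
        exact h6
      have h8 := Nat.cast_injective (R := E) h7
      have h9 : n ≠ 0 := by
        rintro rfl
        exact ha (by rw [hn]; rfl)
      have := Nat.one_lt_two_pow h9
      omega
    · rw [hn, zpow_neg, zpow_natCast, inv_eq_one] at h6
      have h7 : ((2 ^ n : ℕ) : E) = ((1 : ℕ) : E) := by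
        push_cast
        exact h6
      have h8 := Nat.cast_injective (R := E) h7
      have h9 : n ≠ 0 := by
        rintro rfl
        exact ha (by rw [hn]; rfl)
      have := Nat.one_lt_two_pow h9
      omega

end Pool.Agent.Y742.DI
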